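import Pool.Agent.LD.L.Defs
import Pool.Agent.QD.In.Def
import Pool.Agent.QD.N4.SplitSq
import Pool.Agent.QD.N4.SqSplit

/-!
# LD/L-Deg: local degrees in quadratic extensions and towers

Towers, existence of places, positivity; in a quadratic extension `K(√x)` the local degree is `1` at the
places over `v` if `x` is a local square at `v`, and `2` otherwise; so the local degree is even in every
extension in which a local nonsquare becomes a local square.
-/

namespace Pool.Agent.LD

open NumberField IsDedekindDomain Pool.Agent.HWR Pool.Agent.QD Pool.Agent.QD.In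

theorem locDeg_tower (K F M : Type) [Field K] [NumberField K] [Field F] [NumberField F]
    [Field M] [NumberField M] [Algebra K F] [Algebra F M] [Algebra K M] [IsScalarTower K F M]
    (w : HeightOneSpectrum (𝓞 F)) (W : HeightOneSpectrum (𝓞 M)) (h : Over w W) :
    locDeg K W = locDeg K w * locDeg F W := by
  have hl : W.asIdeal.LiesOver w.asIdeal := ⟨h.symm⟩
  unfold locDeg
  rw [Ideal.ramificationIdx_tower (R := 𝓞 K) w.asIdeal W.asIdeal,
    Ideal.inertiaDeg_tower (R := 𝓞 K) w.asIdeal W.asIdeal]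
  ring

theorem over_trans {K F M : Type} [Field K] [NumberField K] [Field F] [NumberField F]
    [Field M] [NumberField M] [Algebra K F] [Algebra F M] [Algebra K M] [IsScalarTower K F M]
    {v : HeightOneSpectrum (𝓞 K)} {w : HeightOneSpectrum (𝓞 F)} {W : HeightOneSpectrum (𝓞 M)}
    (h : Over v w) (h' : Over w W) : Over v W := by
  unfold Over at h h' ⊢
  rw [IsScalarTower.algebraMap_eq (𝓞 K) (𝓞 F) (𝓞 M), ← Ideal.comap_comap, h', h]

theorem exists_over' {K : Type} (F : Type) [Field K] [NumberField K] [Field F] [NumberField F]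
    [Algebra K F] (v : HeightOneSpectrum (𝓞 K)) : ∃ w : HeightOneSpectrum (𝓞 F), Over v w := by
  obtain ⟨⟨P, hP⟩⟩ := v.asIdeal.nonempty_primesOver (S := 𝓞 F)
  exact ⟨⟨P, hP.1, Ideal.ne_bot_of_mem_primesOver v.ne_bot hP⟩, hP.2.over.symm⟩

theorem locDeg_pos (K : Type) {F : Type} [Field K] [NumberField K] [Field F] [NumberField F]
    [Algebra K F] (w : HeightOneSpectrum (𝓞 F)) : 0 < locDeg K w := by
  have h : w.asIdeal.IsPrime := w.isPrime
  exact Nat.mul_pos (w.asIdeal.ramificationIdx_pos (𝓞 K)) (w.asIdeal.inertiaDeg_pos (𝓞 K))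

theorem locDeg_self (K : Type) [Field K] [NumberField K] (v : HeightOneSpectrum (𝓞 K)) :
    locDeg K v = 1 := by
  have hov : Over v v := by
    unfold Over
    ext x
    exact Iff.rfl
  have h1 := locDeg_tower K K K v v hov
  have h2 := locDeg_pos K v
  have h3 : locDeg K v * 1 = locDeg K v * locDeg K v := by rw [mul_one]; exact h1
  exact (Nat.eq_of_mul_eq_mul_left h2 h3).symm

/-- the two cases in a quadratic extension -/
private theorem dg_cases {K : Type} [Field K] [NumberField K] (L : Type) [Field L] [NumberField L]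
    [Algebra K L] (hdeg : Module.finrank K L = 2) (v : HeightOneSpectrum (𝓞 K)) :
    (Splits K L v ∧ ∀ w : HeightOneSpectrum (𝓞 L), Over v w → locDeg K w = 1) ∨
      (¬ Splits K L v ∧ ∀ w : HeightOneSpectrum (𝓞 L), Over v w → locDeg K w = 2) := by
  classical
  set p : Ideal (𝓞 K) := v.asIdeal with hp
  have hp0 : p ≠ ⊥ := v.ne_bot
  have hmax : p.IsMaximal := v.isMaximal
  have hfin : Finite (p.primesOver (𝓞 L)) := by
    rw [← IsDedekindDomain.coe_primesOverFinset hp0 (𝓞 L)]
    exact Finset.finite_toSet _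
  let _ : Fintype (p.primesOver (𝓞 L)) := Fintype.ofFinite _
  have hrank : Module.finrank (𝓞 K) (𝓞 L) = 2 := by
    rw [← hdeg]
    exact (IsFractionRing.finrank_eq (𝓞 K) K (𝓞 L) L).symm
  have hsum := Ideal.sum_ramification_inertia_eq_finrank p (𝓞 L)
  rw [hrank] at hsum
  have hpos : ∀ q : p.primesOver (𝓞 L),
      1 ≤ q.1.ramificationIdx (𝓞 K) * q.1.inertiaDeg (𝓞 K) := by
    intro q
    have : q.1.IsPrime := q.2.1
    exact Nat.mul_pos (q.1.ramificationIdx_pos (𝓞 K)) (q.1.inertiaDeg_pos (𝓞 K))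
  have hcard : Fintype.card (p.primesOver (𝓞 L)) ≤ 2 := by
    rw [← hsum, ← Finset.card_univ, Finset.card_eq_sum_ones]
    exact Finset.sum_le_sum fun q _ => hpos q
  have hcard0 : Fintype.card (p.primesOver (𝓞 L)) ≠ 0 := by
    intro h0
    have := Fintype.card_eq_zero_iff.mp h0
    rw [Finset.univ_eq_empty, Finset.sum_empty] at hsum
    exact absurd hsum (by norm_num)
  have hsp : Splits K L v ↔ Fintype.card (p.primesOver (𝓞 L)) = 2 := by
    unfold Splits
    rw [← Nat.card_coe_set_eq, Nat.card_eq_fintype_card]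
  have hcases : Fintype.card (p.primesOver (𝓞 L)) = 2 ∨
      Fintype.card (p.primesOver (𝓞 L)) = 1 := by omega
  rcases hcases with h2 | h1
  · left
    refine ⟨hsp.2 h2, fun w hw => ?_⟩
    have h3 : ∑ q : p.primesOver (𝓞 L), (1 : ℕ) =
        ∑ q : p.primesOver (𝓞 L), q.1.ramificationIdx (𝓞 K) * q.1.inertiaDeg (𝓞 K) := by
      rw [hsum, ← Finset.card_eq_sum_ones, Finset.card_univ, h2]
    have h4 := (Finset.sum_eq_sum_iff_of_le (fun q _ => hpos q)).mp h3
      ⟨w.asIdeal, ⟨w.isPrime, ⟨hw.symm⟩⟩⟩ (Finset.mem_univ _)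
    exact h4.symm
  · right
    refine ⟨fun hs => by have := hsp.1 hs; omega, fun w hw => ?_⟩
    obtain ⟨u, hu⟩ := Fintype.card_eq_one_iff.mp h1
    have hwu : (⟨w.asIdeal, ⟨w.isPrime, ⟨hw.symm⟩⟩⟩ : p.primesOver (𝓞 L)) = u := hu _
    have h6 := Fintype.sum_eq_single (f := fun q : p.primesOver (𝓞 L) =>
      q.1.ramificationIdx (𝓞 K) * q.1.inertiaDeg (𝓞 K)) u (fun q hq => absurd (hu q) hq)
    rw [hsum] at h6
    have h7 : u.1 = w.asIdeal := by rw [← hwu]
    have h8 : u.1.ramificationIdx (𝓞 K) * u.1.inertiaDeg (𝓞 K) = locDeg K w := by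
      unfold locDeg
      rw [h7]
    rw [← h8]
    exact h6.symm

theorem split_one {K : Type} [Field K] [NumberField K] (L : Type) [Field L] [NumberField L]
    [Algebra K L] (hdeg : Module.finrank K L = 2) (x : Kˣ) (θ : L)
    (hθ : θ ^ 2 = algebraMap K L (x : K)) (hns : ¬ IsSquare x) (v : HeightOneSpectrum (𝓞 K))
    (hx : LSq v x) : ∃ w : HeightOneSpectrum (𝓞 L), Over v w ∧ locDeg K w = 1 := by
  obtain ⟨w, hw⟩ := exists_over' L v
  rcases dg_cases L hdeg v with h | h
  · exact ⟨w, hw, h.2 w hw⟩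
  · exact absurd (N4.splits_of_LSq L hdeg x θ hθ hns v hx) h.1

theorem nonsplit_two {K : Type} [Field K] [NumberField K] (L : Type) [Field L] [NumberField L]
    [Algebra K L] (hdeg : Module.finrank K L = 2) (x : Kˣ) (θ : L)
    (hθ : θ ^ 2 = algebraMap K L (x : K)) (v : HeightOneSpectrum (𝓞 K)) (hx : ¬ LSq v x)
    (w : HeightOneSpectrum (𝓞 L)) (hw : Over v w) : locDeg K w = 2 := by
  rcases dg_cases L hdeg v with h | h
  · exact absurd (N4.LSq_of_splits L hdeg x θ hθ v h.1) hx
  · exact h.2 w hw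

private theorem dg_lsq_of_sq {K : Type} [Field K] [NumberField K] (x : Kˣ)
    (v : HeightOneSpectrum (𝓞 K)) (b : K) (hb : b ^ 2 = (x : K)) : LSq v x := by
  have hb0 : b ≠ 0 := by
    rintro rfl
    rw [zero_pow (by norm_num)] at hb
    exact x.ne_zero hb.symm
  intro k
  refine ⟨(Units.mk0 b hb0)⁻¹, ?_⟩
  unfold closeOne
  have e : (x : K) * (((Units.mk0 b hb0)⁻¹ : Kˣ) : K) ^ 2 = 1 := by
    rw [Units.val_inv_eq_inv_val, Units.val_mk0, ← hb]
    field_simp
  rw [e, sub_self, map_zero]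
  exact zero_le

theorem two_dvd {K : Type} [Field K] [NumberField K] (M : Type) [Field M] [NumberField M]
    [Algebra K M] (x : Kˣ) (θ : M) (hθ : θ ^ 2 = algebraMap K M (x : K))
    (v : HeightOneSpectrum (𝓞 K)) (hx : ¬ LSq v x) (W : HeightOneSpectrum (𝓞 M))
    (hW : Over v W) : 2 ∣ locDeg K W := by
  have hirr : Irreducible (Polynomial.X ^ 2 - Polynomial.C (x : K)) :=
    X_pow_sub_C_irreducible_of_prime Nat.prime_two fun b hb => hx (dg_lsq_of_sq x v b hb)
  have hroot : Polynomial.aeval θ (Polynomial.X ^ 2 - Polynomial.C (x : K)) = 0 := by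
    rw [map_sub, map_pow, Polynomial.aeval_X, Polynomial.aeval_C, hθ, sub_self]
  have hmonic : (Polynomial.X ^ 2 - Polynomial.C (x : K)).Monic :=
    Polynomial.monic_X_pow_sub_C _ (by norm_num)
  have hmin := minpoly.eq_of_irreducible_of_monic hirr hroot hmonic
  have hint : IsIntegral K θ := ⟨_, hmonic, hroot⟩
  have hfr : Module.finrank K (IntermediateField.adjoin K {θ}) = 2 := by
    rw [IntermediateField.adjoin.finrank hint, ← hmin, Polynomial.natDegree_X_pow_sub_C]
  set F : IntermediateField K M := IntermediateField.adjoin K {θ} with hF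
  have hθ' : (⟨θ, IntermediateField.mem_adjoin_simple_self K θ⟩ : F) ^ 2 =
      algebraMap K F (x : K) := by
    apply Subtype.ext
    exact hθ
  have hcomap : (W.asIdeal.comap (algebraMap (𝓞 F) (𝓞 M))).comap (algebraMap (𝓞 K) (𝓞 F)) =
      v.asIdeal := by
    rw [Ideal.comap_comap, ← IsScalarTower.algebraMap_eq (𝓞 K) (𝓞 F) (𝓞 M)]
    exact hW
  have hWp : W.asIdeal.IsPrime := W.isPrime
  have hne : W.asIdeal.comap (algebraMap (𝓞 F) (𝓞 M)) ≠ ⊥ := by
    intro h0
    rw [h0] at hcomap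
    apply v.ne_bot
    rw [← hcomap]
    exact Ideal.comap_bot_of_injective _ (FaithfulSMul.algebraMap_injective (𝓞 K) (𝓞 F))
  let v2 : HeightOneSpectrum (𝓞 F) :=
    ⟨W.asIdeal.comap (algebraMap (𝓞 F) (𝓞 M)), Ideal.IsPrime.comap _, hne⟩
  have h1 : Over v v2 := hcomap
  have h2 : Over v2 W := rfl
  rw [locDeg_tower K F M v2 W h2, nonsplit_two F hfr x _ hθ' v hx v2 h1]
  exact dvd_mul_right _ _

theorem two_dvd_of_lsq {K : Type} [Field K] [NumberField K] (F : Type) [Field F] [NumberField F]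
    [Algebra K F] (x : Kˣ) (v : HeightOneSpectrum (𝓞 K)) (hx : ¬ LSq v x)
    (w : HeightOneSpectrum (𝓞 F)) (hw : Over v w)
    (hF : LSq w (Units.map (algebraMap K F : K →* F) x)) : 2 ∣ locDeg K w := by
  by_cases hsq : IsSquare (Units.map (algebraMap K F : K →* F) x)
  · obtain ⟨y, hy⟩ := hsq
    refine two_dvd F x (y : F) ?_ v hx w hw
    have h1 := congrArg Units.val hy
    rw [Units.val_mul] at h1
    rw [sq, ← h1]
    rfl
  · obtain ⟨⟨M, θ, hdeg, hθ⟩⟩ := qf_nonempty hsq
    obtain ⟨W, hW1, hW2⟩ := split_one M hdeg _ θ hθ hsq w hF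
    let _ : Algebra K M := ((algebraMap F M).comp (algebraMap K F)).toAlgebra
    have _ : IsScalarTower K F M := IsScalarTower.of_algebraMap_eq fun _ => rfl
    have h1 : θ ^ 2 = algebraMap K M (x : K) := hθ
    have h2 := two_dvd M x θ h1 v hx W (over_trans hw hW1)
    rw [locDeg_tower K F M w W hW1, hW2, mul_one] at h2
    exact h2

end Pool.Agent.LD
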