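import Pool.Agent.LD.L.Defs
import Pool.Agent.Helper12.SD.Gal

/-!
# LD/L-Fld: fields of open subgroups

PLAN.  Copy the proof of `exists_galois` (Helper12/SD/Gal.lean) without the parts on normality: `F` = fixed field of `H`,
`ψ = algebraMap F (AlgebraicClosure ℚ)`, `algebraMap K F = φ.codRestrict ..`, so `ψ.comp (algebraMap K F) = φ` by `rfl`/`ext`.
-/

namespace Pool.Agent.LD

open NumberField Pool.Agent.H73.DU Pool.Agent.H73.AL

private theorem alg_cl (inst : Algebra ℚ (AlgebraicClosure ℚ)) :
    IsAlgClosure ℚ (AlgebraicClosure ℚ) := by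
  have h : inst = AlgebraicClosure.instAlgebra ℚ := Subsingleton.elim _ _
  subst h
  infer_instance

private theorem isGal : IsGalois ℚ (AlgebraicClosure ℚ) := by
  have : IsAlgClosure ℚ (AlgebraicClosure ℚ) := alg_cl inferInstance
  have : Normal ℚ (AlgebraicClosure ℚ) := IsAlgClosure.normal ℚ _
  exact {}

private theorem fr_of_mark (F : Type) [Field F] [NumberField F] (H : Subgroup GQ)
    (hmark : mark F = pc H) : Module.finrank ℚ F = H.index := by
  have h3 := congrFun hmark ⊥
  rw [pc_bot, mark, pch_bot] at h3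
  have h4 := NumberField.Embeddings.card F (AlgebraicClosure ℚ)
  rw [← Nat.card_eq_fintype_card] at h4
  rw [h4] at h3
  exact_mod_cast h3

theorem exists_fld (K : NF) (φ : K.F →+* AlgebraicClosure ℚ) (H : Subgroup GQ)
    (hH : IsOpen (H : Set GQ)) (hHK : H ≤ stb φ) {n : ℕ} (hi : H.index = n * (stb φ).index) :
    ∃ (F : NF) (_ : Algebra K.F F.F) (ψ : F.F →+* AlgebraicClosure ℚ),
      ψ.comp (algebraMap K.F F.F) = φ ∧ stb ψ = H ∧ mark F.F = pc H ∧
        Module.finrank K.F F.F = n := by
  have := isGal
  have hcl : IsAlgClosure ℚ (AlgebraicClosure ℚ) := alg_cl inferInstance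
  let F : IntermediateField ℚ (AlgebraicClosure ℚ) := IntermediateField.fixedField H
  have hfd : FiniteDimensional ℚ F := by
    obtain ⟨E, hE, hEN⟩ := (krullTopology_mem_nhds_one_iff ℚ (AlgebraicClosure ℚ) (H : Set _)).1
      (hH.mem_nhds H.one_mem)
    have h1 : F ≤ E := by
      rw [← InfiniteGalois.fixedField_fixingSubgroup E]
      exact IntermediateField.fixedField_antitone hEN
    have := hE
    exact Submodule.finiteDimensional_of_le (S₁ := Subalgebra.toSubmodule F.toSubalgebra)
      (S₂ := Subalgebra.toSubmodule E.toSubalgebra) h1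
  have hnf : NumberField F := {}
  have hst : MulAction.stabilizer GQ (algebraMap F (AlgebraicClosure ℚ)) = H := by
    have h2 : F.fixingSubgroup = H := by
      have := InfiniteGalois.fixingSubgroup_fixedField
        (⟨H, H.isClosed_of_isOpen hH⟩ : ClosedSubgroup GQ)
      exact this
    rw [← h2]
    ext g
    rw [MulAction.mem_stabilizer_iff, IntermediateField.mem_fixingSubgroup_iff]
    constructor
    · intro h x hx
      exact RingHom.congr_fun h ⟨x, hx⟩
    · intro h
      ext x
      exact h _ x.2
  have hmark : mark F = pc H := by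
    rw [mark_eq_pc F (algebraMap F (AlgebraicClosure ℚ)), hst]
  have hmem : ∀ x : K.F, φ x ∈ F := by
    intro x g
    have h1 := MulAction.mem_stabilizer_iff.1 (hHK g.2)
    exact RingHom.congr_fun h1 x
  have hfr : Module.finrank ℚ F = H.index := fr_of_mark F H hmark
  have hfrK : Module.finrank ℚ K.F = (stb φ).index :=
    fr_of_mark K.F (stb φ) (mark_eq_pc K.F φ)
  let algKF : Algebra K.F F := (φ.codRestrict F.toSubfield hmem).toAlgebra
  have hsc : IsScalarTower ℚ K.F F := by
    refine IsScalarTower.of_algebraMap_eq' ?_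
    exact Subsingleton.elim _ _
  have hmul : Module.finrank ℚ K.F * Module.finrank K.F F = Module.finrank ℚ F :=
    Module.finrank_mul_finrank ℚ K.F F
  have hpos : 0 < Module.finrank ℚ K.F := Module.finrank_pos
  have hn : Module.finrank K.F F = n := by
    rw [hfr, hi, ← hfrK, mul_comm] at hmul
    exact Nat.eq_of_mul_eq_mul_right hpos hmul
  exact ⟨⟨F⟩, algKF, algebraMap F (AlgebraicClosure ℚ), rfl, hst, hmark, hn⟩


end Pool.Agent.LD
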