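import Pool.Agent.LD.L.Pl

/-!
# LD/L-Apx: local squares from Galois theory over `ℚ_[p]`

PLAN.  `Ω = AlgebraicClosure ℚ_[p]`, `i = emb p`, `E : IntermediateField ℚ_[p] Ω` = `adjoin ℚ_[p] (range (i ∘ ψ))`.
(1) `i s ∈ E`: `InfiniteGalois.fixedField_fixingSubgroup E` (`Ω / ℚ_[p]` is Galois); let `σ` fix `E`; by `ext_loc`
(private in H73/AL/LocMark.lean, copy it) there is `g : GQ` with `i (g x) = σ (i x)`; `g ∈ decomp ℚ_[p] i`, `g • ψ = ψ` as `i`
is injective and `σ` fixes `i (ψ x)`; so `g s = s` and `σ (i s) = i s`.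
(2) every element of `E` is a `ℚ_[p]`-linear combination of finitely many `i (ψ b)`: the elements `i (ψ x)` are algebraic, so
`E` is the algebra generated by them (`IntermediateField.adjoin_toSubalgebra_of_isAlgebraic`, `Algebra.adjoin_eq_span`), and
the set `range (i ∘ ψ)` is closed under products: `E` is the span of this range (`Submonoid.closure_eq`).
(3) so `i s = ∑ c_j i (ψ b_j)` (`Finsupp.mem_span_range_iff_exists_finsupp` or `Submodule.mem_span_..`); given `δ > 0` choose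
rationals `r_j` with `‖c_j - r_j‖ ‖i (ψ b_j)‖ < δ` (`padicNormE.rat_dense` / `Padic.rat_dense`), `r = ∑ r_j b_j : F`: `‖i s - i (ψ r)‖ < δ`
(ultrametric or triangle inequality with `δ / n`).
(4) `y r⁻² - 1 = (s² - r²)/r²`, `‖.‖ = ‖s - r‖ ‖s + r‖ / ‖r‖²` and for `δ < ‖s‖` : `‖r‖ = ‖s‖`, `‖s + r‖ ≤ ‖s‖`: it is at most
`δ / ‖s‖ ≤ p^(-k)` for `δ` small; `isPl_close` with `r⁻¹ : Fˣ`.
-/

namespace Pool.Agent.LD

open NumberField IsDedekindDomain Pool.Agent.HWR Pool.Agent.QD Pool.Agent.H73.DU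

private theorem apx_alg_cl (inst : Algebra ℚ (AlgebraicClosure ℚ)) :
    IsAlgClosure ℚ (AlgebraicClosure ℚ) := by
  have h : inst = AlgebraicClosure.instAlgebra ℚ := Subsingleton.elim _ _
  subst h
  infer_instance

private theorem apx_ext_loc {Ω : Type} [Field Ω] [CharZero Ω] (i : AlgebraicClosure ℚ →+* Ω)
    (σ : Ω ≃+* Ω) : ∃ g : GQ, ∀ x, i (g x) = σ (i x) := by
  have : IsAlgClosure ℚ (AlgebraicClosure ℚ) := apx_alg_cl inferInstance
  have : Normal ℚ (AlgebraicClosure ℚ) := IsAlgClosure.normal ℚ _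
  let _ : Algebra (AlgebraicClosure ℚ) Ω := i.toAlgebra
  let _ : Algebra ℚ Ω := DivisionRing.toRatAlgebra
  have : IsScalarTower ℚ (AlgebraicClosure ℚ) Ω :=
    IsScalarTower.of_algebraMap_eq' (Subsingleton.elim _ _)
  let σ' : Ω ≃ₐ[ℚ] Ω := AlgEquiv.ofRingEquiv (f := σ) (fun r => by
    rw [eq_ratCast, map_ratCast])
  refine ⟨σ'.restrictNormal (AlgebraicClosure ℚ), fun x => ?_⟩
  exact σ'.restrictNormal_commutes (AlgebraicClosure ℚ) x

private theorem apx_span (p : ℕ) [Fact p.Prime] {F : Type} [Field F]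
    (ψ : F →+* AlgebraicClosure ℚ) (s : AlgebraicClosure ℚ)
    (h : ∀ g ∈ decomp ℚ_[p] (emb p), g ∈ stb ψ → g s = s) :
    emb p s ∈ Submodule.span ℚ_[p] (Set.range fun x : F => emb p (ψ x)) := by
  set M : Submonoid (AlgebraicClosure ℚ_[p]) :=
    MonoidHom.mrange (((emb p).comp ψ : F →+* AlgebraicClosure ℚ_[p]) :
      F →* AlgebraicClosure ℚ_[p]) with hM
  have hMr : (M : Set (AlgebraicClosure ℚ_[p])) = Set.range fun x : F => emb p (ψ x) := rfl
  set E : IntermediateField ℚ_[p] (AlgebraicClosure ℚ_[p]) :=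
    IntermediateField.adjoin ℚ_[p] (M : Set (AlgebraicClosure ℚ_[p])) with hE
  have hmem : ∀ x : F, emb p (ψ x) ∈ E := fun x =>
    IntermediateField.subset_adjoin _ _ (show emb p (ψ x) ∈ (M : Set _) from ⟨x, rfl⟩)
  have h1 : emb p s ∈ E := by
    rw [← InfiniteGalois.fixedField_fixingSubgroup E, IntermediateField.mem_fixedField_iff]
    intro σ hσ
    obtain ⟨g, hg⟩ := apx_ext_loc (emb p)
      (σ : AlgebraicClosure ℚ_[p] ≃+* AlgebraicClosure ℚ_[p])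
    have hg' : ∀ x, emb p (g x) = σ (emb p x) := hg
    have h2 : g ∈ decomp ℚ_[p] (emb p) := ⟨σ, hg'⟩
    have h3 : g ∈ stb ψ := by
      refine MulAction.mem_stabilizer_iff.2 ?_
      refine RingHom.ext fun x => (emb p).injective ?_
      change emb p (g (ψ x)) = emb p (ψ x)
      rw [hg']
      exact (IntermediateField.mem_fixingSubgroup_iff E σ).1 hσ _ (hmem x)
    rw [← hg', h g h2 h3]
  have h2 : E.toSubalgebra = Algebra.adjoin ℚ_[p] (M : Set (AlgebraicClosure ℚ_[p])) :=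
    IntermediateField.adjoin_toSubalgebra_of_isAlgebraic
      (fun x _ => Algebra.IsAlgebraic.isAlgebraic x)
  have h3 : emb p s ∈ Algebra.adjoin ℚ_[p] (M : Set (AlgebraicClosure ℚ_[p])) := by
    rw [← h2]
    exact h1
  have h4 : emb p s ∈ Subalgebra.toSubmodule
      (Algebra.adjoin ℚ_[p] (M : Set (AlgebraicClosure ℚ_[p]))) := h3
  rw [Algebra.adjoin_eq_span, Submonoid.closure_eq, hMr] at h4
  exact h4

private theorem apx_dense (p : ℕ) [Fact p.Prime] {F : Type} [Field F]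
    (ψ : F →+* AlgebraicClosure ℚ) {z : AlgebraicClosure ℚ_[p]}
    (hz : z ∈ Submodule.span ℚ_[p] (Set.range fun x : F => emb p (ψ x))) :
    ∀ δ : ℝ, 0 < δ → ∃ r : F, ‖z - emb p (ψ r)‖ < δ := by
  induction hz using Submodule.span_induction with
  | mem x hx =>
    intro δ hδ
    obtain ⟨r, rfl⟩ := hx
    exact ⟨r, by simpa using hδ⟩
  | zero =>
    intro δ hδ
    exact ⟨0, by simpa using hδ⟩
  | add x y _ _ hx hy =>
    intro δ hδ
    obtain ⟨r, hr⟩ := hx (δ / 2) (by linarith)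
    obtain ⟨r', hr'⟩ := hy (δ / 2) (by linarith)
    refine ⟨r + r', ?_⟩
    have e : x + y - emb p (ψ (r + r')) = (x - emb p (ψ r)) + (y - emb p (ψ r')) := by
      rw [map_add, map_add]
      ring
    rw [e]
    exact lt_of_le_of_lt (norm_add_le _ _) (by linarith)
  | smul c x _ hx =>
    intro δ hδ
    have hx0 : 0 ≤ ‖x‖ := norm_nonneg x
    obtain ⟨q, hq⟩ := Padic.rat_dense p c (ε := δ / (2 * (‖x‖ + 1))) (by positivity)
    have hq0 : 0 ≤ ‖((q : ℚ_[p]) : ℚ_[p])‖ := norm_nonneg _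
    obtain ⟨r, hr⟩ := hx (δ / (2 * (‖(q : ℚ_[p])‖ + 1))) (by positivity)
    refine ⟨q * r, ?_⟩
    have e : c • x - emb p (ψ (q * r)) =
        (c - (q : ℚ_[p])) • x + (q : ℚ_[p]) • (x - emb p (ψ r)) := by
      rw [map_mul, map_mul, map_ratCast, map_ratCast, sub_smul, smul_sub]
      have e2 : (q : ℚ_[p]) • emb p (ψ r) = (q : AlgebraicClosure ℚ_[p]) * emb p (ψ r) := by
        rw [Algebra.smul_def, map_ratCast]
      rw [e2]
      abel
    rw [e]
    refine lt_of_le_of_lt (norm_add_le _ _) ?_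
    rw [norm_smul, norm_smul]
    have h1 : ‖c - (q : ℚ_[p])‖ * ‖x‖ < δ / 2 := by
      have h2 : ‖c - (q : ℚ_[p])‖ * (2 * (‖x‖ + 1)) < δ := (lt_div_iff₀ (by positivity)).1 hq
      have h3 : 0 ≤ ‖c - (q : ℚ_[p])‖ := norm_nonneg _
      nlinarith
    have h4 : ‖(q : ℚ_[p])‖ * ‖x - emb p (ψ r)‖ < δ / 2 := by
      have h2 : ‖x - emb p (ψ r)‖ * (2 * (‖(q : ℚ_[p])‖ + 1)) < δ :=
        (lt_div_iff₀ (by positivity)).1 hr
      have h3 : 0 ≤ ‖x - emb p (ψ r)‖ := norm_nonneg _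
      nlinarith
    linarith

theorem lsq_of_fix (p : ℕ) [Fact p.Prime] {F : Type} [Field F] [NumberField F]
    (ψ : F →+* AlgebraicClosure ℚ) {w : HeightOneSpectrum (𝓞 F)} (hw : IsPl p ψ w) (y : Fˣ)
    (s : AlgebraicClosure ℚ) (hs : s ^ 2 = ψ (y : F))
    (h : ∀ g ∈ decomp ℚ_[p] (emb p), g ∈ stb ψ → g s = s) : LSq w y := by
  intro k
  set S : AlgebraicClosure ℚ_[p] := emb p s with hS
  have hsq : S ^ 2 = emb p (ψ (y : F)) := by rw [hS, ← map_pow, hs]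
  have hS0 : S ≠ 0 := by
    intro h0
    rw [h0, zero_pow two_ne_zero] at hsq
    have h1 := (map_eq_zero (emb p)).1 hsq.symm
    exact y.ne_zero ((map_eq_zero ψ).1 h1)
  have hSn : 0 < ‖S‖ := norm_pos_iff.2 hS0
  have hp : (0 : ℝ) < ((p : ℝ)⁻¹) ^ k := by
    have h1 : 0 < p := (Fact.out : p.Prime).pos
    positivity
  obtain ⟨r, hr⟩ := apx_dense p ψ (apx_span p ψ s h)
    (min (‖S‖ / 2) (((p : ℝ)⁻¹) ^ k * ‖S‖ / 12)) (by positivity)
  rw [← hS] at hr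
  set R : AlgebraicClosure ℚ_[p] := emb p (ψ r) with hR
  have hr1 : ‖S - R‖ < ‖S‖ / 2 := hr.trans_le (min_le_left _ _)
  have hr2 : ‖S - R‖ < ((p : ℝ)⁻¹) ^ k * ‖S‖ / 12 := hr.trans_le (min_le_right _ _)
  have hRn : ‖S‖ / 2 ≤ ‖R‖ := by
    have h1 : ‖S‖ ≤ ‖S - R‖ + ‖R‖ := by
      have h2 := norm_add_le (S - R) R
      rwa [sub_add_cancel] at h2
    linarith
  have hR0 : R ≠ 0 := by
    intro h0
    rw [h0, norm_zero] at hRn
    linarith
  have hr0 : r ≠ 0 := by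
    intro h0
    apply hR0
    rw [hR, h0, map_zero, map_zero]
  have hSR : ‖S + R‖ ≤ 3 * ‖S‖ := by
    have h1 : S + R = 2 * S - (S - R) := by ring
    have h2 : ‖S + R‖ ≤ ‖S + S‖ + ‖S - R‖ := by
      have h3 : S + R = (S + S) - (S - R) := by ring
      rw [h3]
      exact norm_sub_le _ _
    have h3 := norm_add_le S S
    linarith
  refine ⟨(Units.mk0 r hr0)⁻¹, isPl_close hw k ?_⟩
  have e : emb p (ψ ((y : F) * (((Units.mk0 r hr0)⁻¹ : Fˣ) : F) ^ 2 - 1)) =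
      (S - R) * (S + R) / R ^ 2 := by
    rw [Units.val_inv_eq_inv_val, Units.val_mk0, map_sub, map_sub, map_mul, map_mul, map_pow,
      map_pow, map_inv₀, map_inv₀, map_one, map_one, ← hsq, ← hR]
    field_simp
    ring
  rw [e, norm_div, norm_mul, norm_pow, div_le_iff₀ (by positivity)]
  have h1 : ‖S - R‖ * ‖S + R‖ ≤ (((p : ℝ)⁻¹) ^ k * ‖S‖ / 12) * (3 * ‖S‖) :=
    mul_le_mul hr2.le hSR (norm_nonneg _) (by positivity)
  have h2 : (‖S‖ / 2) ^ 2 ≤ ‖R‖ ^ 2 := pow_le_pow_left₀ (by positivity) hRn 2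
  have h3 : ((p : ℝ)⁻¹) ^ k * (‖S‖ / 2) ^ 2 ≤ ((p : ℝ)⁻¹) ^ k * ‖R‖ ^ 2 :=
    mul_le_mul_of_nonneg_left h2 hp.le
  have h4 : (((p : ℝ)⁻¹) ^ k * ‖S‖ / 12) * (3 * ‖S‖) = ((p : ℝ)⁻¹) ^ k * (‖S‖ / 2) ^ 2 := by
    ring
  linarith

end Pool.Agent.LD
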