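import Pool.Agent.LD.L.Pl

/-!
# LD/L-ExEmb: every place over `p` is induced by an embedding

Transitivity of the Galois group of the normal closure on the primes over `p`.
-/

namespace Pool.Agent.LD

open NumberField IsDedekindDomain Pool.Agent.HWR Pool.Agent.QD Pool.Agent.H73.DU

private theorem exemb_alg (inst : Algebra ℚ (AlgebraicClosure ℚ)) :
    IsAlgClosure ℚ (AlgebraicClosure ℚ) := by
  have h : inst = AlgebraicClosure.instAlgebra ℚ := Subsingleton.elim _ _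
  subst h
  infer_instance

private theorem exemb_over (p : ℕ) [Fact p.Prime] {L : Type} [Field L] [NumberField L]
    {P : Ideal (𝓞 L)} (hP : P.IsPrime) (hp : (p : 𝓞 L) ∈ P) :
    P ∈ Ideal.primesOver (Ideal.span {(p : ℤ)}) (𝓞 L) := by
  refine ⟨hP, ⟨?_⟩⟩
  have hpr : Prime (p : ℤ) := Nat.prime_iff_prime_int.1 (Fact.out)
  have hm : (Ideal.span {(p : ℤ)}).IsMaximal :=
    PrincipalIdealRing.isMaximal_of_irreducible hpr.irreducible
  refine hm.eq_of_le ?_ ?_
  · exact (Ideal.IsPrime.under ℤ P).ne_top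
  · rw [Ideal.span_singleton_le_iff_mem, Ideal.mem_comap]
    simpa using hp

theorem exists_emb (p : ℕ) [Fact p.Prime] (K : Type) [Field K] [NumberField K]
    (v : HeightOneSpectrum (𝓞 K)) (hp : (p : 𝓞 K) ∈ v.asIdeal) :
    ∃ φ : K →+* AlgebraicClosure ℚ, IsPl p φ v := by
  have hcl : IsAlgClosure ℚ (AlgebraicClosure ℚ) := exemb_alg inferInstance
  have hal : IsAlgClosed (AlgebraicClosure ℚ) := inferInstance
  have hno : Normal ℚ (AlgebraicClosure ℚ) := IsAlgClosure.normal ℚ _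
  let φ1 : K →ₐ[ℚ] AlgebraicClosure ℚ := IsAlgClosed.lift
  let L : IntermediateField ℚ (AlgebraicClosure ℚ) :=
    IntermediateField.normalClosure ℚ K (AlgebraicClosure ℚ)
  have hfin : FiniteDimensional ℚ L := normalClosure.is_finiteDimensional ℚ K _
  have hnorm : Normal ℚ L := normalClosure.normal ℚ K _
  have hgal : IsGalois ℚ L := {}
  have hnf : NumberField L := {}
  have hle : φ1.fieldRange ≤ L := AlgHom.fieldRange_le_normalClosure φ1
  let φ1' : K →+* L := (IntermediateField.inclusion hle).toRingHom.comp φ1.rangeRestrict.toRingHom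
  have hφ1' : ∀ x, ((φ1' x : L) : AlgebraicClosure ℚ) = φ1 x := fun x => rfl
  obtain ⟨W1, hW1⟩ := exists_isPl p (algebraMap L (AlgebraicClosure ℚ))
  let f : 𝓞 K →+* 𝓞 L := RingOfIntegers.mapRingHom φ1'
  have hf : ∀ x : 𝓞 K, ((f x : 𝓞 L) : L) = φ1' (x : K) := fun x => rfl
  let _ : Algebra (𝓞 K) (𝓞 L) := f.toAlgebra
  have hint : Algebra.IsIntegral (𝓞 K) (𝓞 L) := Algebra.IsIntegral.tower_top (R := ℤ)
  have hfi : Function.Injective f := by
    intro x y hxy
    have h := congrArg (fun z : 𝓞 L => (z : L)) hxy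
    simp only [hf] at h
    exact RingOfIntegers.ext (φ1'.injective h)
  have hvm : v.asIdeal.IsMaximal := v.isMaximal
  obtain ⟨Q, hQm, hQ⟩ := Ideal.exists_ideal_over_maximal_of_isIntegral (S := 𝓞 L) v.asIdeal (by
    have : RingHom.ker (algebraMap (𝓞 K) (𝓞 L)) = ⊥ := (RingHom.injective_iff_ker_eq_bot _).1 hfi
    rw [this]
    exact bot_le)
  have hpQ : (p : 𝓞 L) ∈ Q := by
    have h1 : (p : 𝓞 K) ∈ Q.comap (algebraMap (𝓞 K) (𝓞 L)) := by rw [hQ]; exact hp
    rw [Ideal.mem_comap, map_natCast] at h1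
    exact h1
  obtain ⟨σ, hσ⟩ := Ideal.exists_comap_galRestrict_eq ℤ ℚ L (𝓞 L)
    (exemb_over p W1.isPrime (isPl_mem hW1)) (exemb_over p hQm.isPrime hpQ)
  refine ⟨(algebraMap L (AlgebraicClosure ℚ)).comp ((σ : L →+* L).comp φ1'), fun x => ?_⟩
  have h2 : x ∈ v.asIdeal ↔ f x ∈ Q := by
    rw [← hQ]
    exact Ideal.mem_comap
  have h3 : f x ∈ Q ↔ galRestrict ℤ ℚ L (𝓞 L) σ (f x) ∈ W1.asIdeal := by
    rw [← hσ]
    exact Ideal.mem_comap
  rw [h2, h3, hW1]
  have h4 : ((galRestrict ℤ ℚ L (𝓞 L) σ (f x) : 𝓞 L) : L) = σ (φ1' (x : K)) :=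
    algebraMap_galRestrict_apply ℤ σ (f x)
  rw [h4]
  rfl

end Pool.Agent.LD
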