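import Pool.Agent.LD.L.Defs
import Pool.Agent.H73.DU.Cdata

/-!
# LD/L-Coc: two independent cocycles

PLAN (see `exists_char` in H73/DU/Chars.lean for the use of `exists_cdata`).  `p = 3`.  One cocycle: for an open normal subgroup
`N0 ≤ ε.ker`, `hJ.emb 3` gives `N' ≤ N0`, `θ`; `exists_cdata hJ` gives `D0`; apply it to `M = ZMod 3`, `ρ g m = (ε g : ZMod 3) * m`
(a `Representation`), `j m x = (ε a : ZMod 3) * m` for `x = a N'` (well defined as `N' ≤ ε.ker`: use `Quotient.lift`, or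
`ε x.out`); `j (ρ g m) x = ε a ε g m = j m (g⁻¹ • x)` because `ε (g⁻¹ a) = ε g⁻¹ ε a` and `ε g⁻¹ = ε g` (all elements of `(ZMod 3)ˣ`
have square `1`: `decide`).  Result: `D : CData 3 J (ZMod 3)`, `z g = D.z g 1`; `D.coc` with `ρ g⁻¹ 1 = ε g` and linearity gives the cocycle
identity; `D.Good.op` gives an open subgroup where `ρ = 1` (so `ε = 1`) and `z = 0`; for all `U ∈ 𝒰`, cyclic or `D.Triv U`, which reads
`z u = t0 (ε u) - t0 1 = (ε u - 1) t0 1`; and for every `f` there is `n ∈ N'` with `D.z n = f`: for every `a : ZMod 3` there is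
`n ∈ N'` with `z n = a`.  So: lemma `one_coc`.
Second cocycle: apply `one_coc` with `N0` = an open normal subgroup contained in `{u | ε u = 1 ∧ z1 u = 0}` (the open subgroup `U1` from
the first step, `hJ.core`: its normal core is open and normal).  `surj`: `n1` with `ε n1 = 1` (as `N' ≤ ε.ker`), `z1 n1 = a`; then
`n2 ∈ N0` with `z2 n2 = b - z2 n1`, `z1 n2 = 0`, `ε n2 = 1`; `n = n1 * n2`: `z1 n = a + 0`, `z2 n = z2 n1 + z2 n2 = b`.
-/

namespace Pool.Agent.LD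

open Pool.Agent.H73.DU

private theorem unit_inv : ∀ e : (ZMod 3)ˣ, e⁻¹ = e := by decide

private theorem one_coc {J : Type} [Group J] [TopologicalSpace J] [IsTopologicalGroup J]
    {𝒰 : Set (Subgroup J)} (hJ : Nice J 𝒰) (ε : J →* (ZMod 3)ˣ) {N0 : Subgroup J}
    (hN0 : IsOpen (N0 : Set J)) (hn : N0.Normal) (hle : N0 ≤ ε.ker) :
    ∃ (N' : Subgroup J) (z : J → ZMod 3), N' ≤ N0 ∧
      (∀ g h, z (g * h) = z g + (ε g : ZMod 3) * z h) ∧
      (∃ U : Subgroup J, IsOpen (U : Set J) ∧ ∀ u ∈ U, ε u = 1 ∧ z u = 0) ∧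
      (∀ U ∈ 𝒰, Cyc U ∨ ∃ t : ZMod 3, ∀ u ∈ U, z u = ((ε u : ZMod 3) - 1) * t) ∧
      ∀ a : ZMod 3, ∃ n ∈ N', z n = a := by
  classical
  obtain ⟨N', θ, h1, h2, h3, h4, h5, h5', h6⟩ := hJ.emb 3 Nat.prime_three N0 hN0 hn
  haveI := h1
  haveI := hJ.fin h2
  haveI : Fintype (J ⧸ N') := Fintype.ofFinite _
  haveI : Fact (Nat.Prime 3) := ⟨Nat.prime_three⟩
  have hout : ∀ a : J, ε ((QuotientGroup.mk a : J ⧸ N').out) = ε a := by
    intro a
    have h7 : (QuotientGroup.mk a : J ⧸ N').out⁻¹ * a ∈ N' :=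
      QuotientGroup.eq.1 (QuotientGroup.out_eq' _)
    have h8 : ε ((QuotientGroup.mk a : J ⧸ N').out⁻¹ * a) = 1 := hle (h3 h7)
    rw [map_mul, map_inv, inv_mul_eq_one] at h8
    exact h8
  obtain ⟨D0, hD0⟩ := exists_cdata hJ h2 h4 h5 h6
  let ρ : Representation (ZMod 3) J (ZMod 3) :=
    { toFun := fun g => (ε g : ZMod 3) • LinearMap.id
      map_one' := by
        rw [map_one, Units.val_one, one_smul]
        rfl
      map_mul' := fun g h => by
        apply LinearMap.ext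
        intro m
        rw [map_mul, Units.val_mul]
        change ((ε g : ZMod 3) * (ε h : ZMod 3)) * m = (ε g : ZMod 3) * ((ε h : ZMod 3) * m)
        rw [mul_assoc] }
  have hρ : ∀ g m, ρ g m = (ε g : ZMod 3) * m := fun g m => rfl
  obtain ⟨D, hD1, hD2, -, hD4, hD3⟩ := hD0 (ZMod 3) ρ
    (LinearMap.pi fun x => (ε x.out : ZMod 3) • LinearMap.id) (by
      intro a b hab
      have h7 := congrFun hab ((1 : J) : J ⧸ N')
      have h8 : (ε ((1 : J) : J ⧸ N').out : ZMod 3) * a =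
        (ε ((1 : J) : J ⧸ N').out : ZMod 3) * b := h7
      exact (Units.mul_right_inj _).mp h8) (by
      intro g m x
      obtain ⟨a, rfl⟩ := QuotientGroup.mk_surjective x
      change (ε ((QuotientGroup.mk a : J ⧸ N').out) : ZMod 3) * ((ε g : ZMod 3) * m) =
        (ε ((QuotientGroup.mk (g⁻¹ * a) : J ⧸ N').out) : ZMod 3) * m
      rw [hout, hout, map_mul, map_inv, unit_inv, Units.val_mul]
      ring)
  have hDρ : ∀ g m, D.ρ g m = (ε g : ZMod 3) * m := by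
    intro g m
    rw [hD1]
    rfl
  have hlin : ∀ (f : Module.Dual (ZMod 3) (ZMod 3)) (a : ZMod 3), f a = a * f 1 := by
    intro f a
    have h7 := f.map_smul a 1
    rw [smul_eq_mul, mul_one, smul_eq_mul] at h7
    exact h7
  have hinv : ∀ g, ε g⁻¹ = ε g := fun g => by rw [map_inv, unit_inv]
  refine ⟨N', fun g => D.z g 1, h3, ?_, ?_, ?_, ?_⟩
  · intro g h
    change D.z (g * h) 1 = D.z g 1 + (ε g : ZMod 3) * D.z h 1
    rw [D.coc, hDρ, mul_one, hinv, hlin (D.z h)]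
  · obtain ⟨U, hU, hUz⟩ := hD2.op
    refine ⟨U, hU, fun u hu => ?_⟩
    obtain ⟨h7, h8⟩ := hUz u hu
    constructor
    · apply Units.ext
      have h9 := hDρ u 1
      rw [h7, mul_one] at h9
      rw [Units.val_one]
      exact h9.symm
    · change D.z u 1 = 0
      rw [h8]
      rfl
  · intro U hU
    rcases h5' U hU with h | h
    · exact Or.inl h
    · right
      obtain ⟨t0, ht0⟩ := hD4 U h
      refine ⟨t0 1, fun u hu => ?_⟩
      change D.z u 1 = _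
      rw [ht0 u hu, hDρ, mul_one, hinv, hlin t0 (ε u : ZMod 3)]
      ring
  · intro a
    obtain ⟨n, hn', hn2⟩ := hD3 (a • LinearMap.id)
    refine ⟨n, hn', ?_⟩
    change D.z n 1 = a
    rw [hn2]
    change a * 1 = a
    rw [mul_one]

theorem exists_coc {J : Type} [Group J] [TopologicalSpace J] [IsTopologicalGroup J]
    {𝒰 : Set (Subgroup J)} (hJ : Nice J 𝒰) (ε : J →* (ZMod 3)ˣ) (hε : IsOpen (ε.ker : Set J))
    (hne : ∃ g, ε g ≠ 1) :
    ∃ D : CocD J, D.ε = ε ∧ D.Good ∧ ∀ U ∈ 𝒰, Cyc U ∨ D.Triv U := by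
  obtain ⟨N1, z1, a1, a2, ⟨U1, hU1, a3⟩, a4, a5⟩ := one_coc hJ ε hε inferInstance le_rfl
  obtain ⟨N2, z2, b1, b2, ⟨U2, hU2, b3⟩, b4, b5⟩ := one_coc hJ ε (hJ.core hU1)
    (Subgroup.normalCore_normal _) (fun u hu => (a3 u (Subgroup.normalCore_le _ hu)).1)
  refine ⟨⟨ε, z1, z2, a2, b2⟩, rfl, ⟨?_, ?_, hne⟩, ?_⟩
  · refine ⟨U1 ⊓ U2, ?_, ?_⟩
    · rw [Subgroup.coe_inf]
      exact hU1.inter hU2
    · rintro u ⟨hu1, hu2⟩
      exact ⟨(a3 u hu1).1, (a3 u hu1).2, (b3 u hu2).2⟩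
  · intro a b
    obtain ⟨n1, hn1, hz1⟩ := a5 a
    obtain ⟨n2, hn2, hz2⟩ := b5 (b - z2 n1)
    have e1 : ε n1 = 1 := a1 hn1
    obtain ⟨e2, z12⟩ := a3 n2 (Subgroup.normalCore_le _ (b1 hn2))
    refine ⟨n1 * n2, ?_, ?_, ?_⟩
    · change ε (n1 * n2) = 1
      rw [map_mul, e1, e2, mul_one]
    · change z1 (n1 * n2) = a
      rw [a2, hz1, z12, mul_zero, add_zero]
    · change z2 (n1 * n2) = b
      rw [b2, hz2, e1, Units.val_one]
      ring
  · intro U hU
    rcases a4 U hU with h | ⟨t1, ht1⟩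
    · exact Or.inl h
    · rcases b4 U hU with h | ⟨t2, ht2⟩
      · exact Or.inl h
      · exact Or.inr ⟨t1, t2, fun u hu => ⟨ht1 u hu, ht2 u hu⟩⟩

end Pool.Agent.LD
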