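import Pool.Agent.LD.L.Defs

/-!
# LD/L-Eps: the quadratic character of the stabilizer of an embedding
-/

namespace Pool.Agent.LD

open NumberField IsDedekindDomain Pool.Agent.HWR Pool.Agent.QD Pool.Agent.H73.DU

theorem exists_eps (K : Type) [Field K] [NumberField K] (φ : K →+* AlgebraicClosure ℚ)
    (x : Kˣ) : ∃ (s : AlgebraicClosure ℚ) (ε : stb φ →* (ZMod 3)ˣ), s ^ 2 = φ (x : K) ∧
      IsOpen (ε.ker : Set (stb φ)) ∧ ∀ g : stb φ, ε g = 1 ↔ (g : GQ) s = s := by
  classical
  obtain ⟨s, hs⟩ := IsAlgClosed.exists_pow_nat_eq (φ (x : K)) (n := 2) two_pos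
  have hs0 : s ≠ 0 := by
    rintro rfl
    rw [zero_pow two_ne_zero] at hs
    exact x.ne_zero (φ.injective (by rw [← hs, map_zero]))
  have hss : s ≠ -s := by
    intro h
    apply hs0
    have h2 : (2 : AlgebraicClosure ℚ) * s = 0 := by linear_combination h
    rcases mul_eq_zero.1 h2 with h3 | h3
    · exact absurd h3 two_ne_zero
    · exact h3
  have hfix : ∀ g : stb φ, (g : GQ) (φ (x : K)) = φ (x : K) := by
    intro g
    have h1 : (g : GQ) • φ = φ := g.2
    exact congrArg (fun ψ : K →+* AlgebraicClosure ℚ => ψ (x : K)) h1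
  have hor : ∀ g : stb φ, (g : GQ) s = s ∨ (g : GQ) s = -s := by
    intro g
    have h1 : ((g : GQ) s) ^ 2 = s ^ 2 := by
      rw [← map_pow, hs, hfix]
    exact sq_eq_sq_iff_eq_or_eq_neg.1 h1
  have hne1 : (-1 : (ZMod 3)ˣ) ≠ 1 := by decide
  let ε : stb φ →* (ZMod 3)ˣ :=
    { toFun := fun g => if (g : GQ) s = s then 1 else -1
      map_one' := by
        rw [if_pos]
        rfl
      map_mul' := by
        intro g h
        have hm : ((g * h : stb φ) : GQ) s = (g : GQ) ((h : GQ) s) := rfl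
        rcases hor g with hg | hg <;> rcases hor h with hh | hh
        · rw [hm, hh, hg, if_pos rfl, mul_one]
        · rw [hm, hh, map_neg, hg, if_neg (Ne.symm hss), if_pos rfl, one_mul]
        · rw [hm, hh, hg, if_neg (Ne.symm hss), if_pos rfl, mul_one]
        · rw [hm, hh, map_neg, hg, neg_neg, if_pos rfl, if_neg (Ne.symm hss), neg_mul_neg,
            one_mul] }
  have hε : ∀ g : stb φ, ε g = if (g : GQ) s = s then 1 else -1 := fun g => rfl
  have hiff : ∀ g : stb φ, ε g = 1 ↔ (g : GQ) s = s := by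
    intro g
    rw [hε]
    split_ifs with h
    · exact ⟨fun _ => h, fun _ => rfl⟩
    · exact ⟨fun h1 => absurd h1 hne1, fun h1 => absurd h1 h⟩
  refine ⟨s, ε, hs, ?_, hiff⟩
  have halg : Algebra.IsAlgebraic ℚ (AlgebraicClosure ℚ) := AlgebraicClosure.isAlgebraic ℚ
  have hint : IsIntegral ℚ s := (Algebra.IsAlgebraic.isAlgebraic (R := ℚ) s).isIntegral
  have : FiniteDimensional ℚ (IntermediateField.adjoin ℚ {s}) :=
    IntermediateField.adjoin.finiteDimensional hint
  have hop : IsOpen ((IntermediateField.adjoin ℚ {s}).fixingSubgroup : Set GQ) :=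
    IntermediateField.fixingSubgroup_isOpen _
  have hop2 : IsOpen ((((IntermediateField.adjoin ℚ {s}).fixingSubgroup).comap
      (stb φ).subtype : Subgroup (stb φ)) : Set (stb φ)) := by
    exact hop.preimage continuous_subtype_val
  refine Subgroup.isOpen_mono ?_ hop2
  intro g hg
  rw [MonoidHom.mem_ker, hiff]
  have hg' : (g : GQ) ∈ (IntermediateField.adjoin ℚ {s}).fixingSubgroup := hg
  rw [IntermediateField.mem_fixingSubgroup_iff] at hg'
  exact hg' s (IntermediateField.mem_adjoin_simple_self ℚ s)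

end Pool.Agent.LD
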