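import Pool.Agent.LD.L.Defs

/-!
# LD/L-Marks: the relation between the marks

PLAN.  `pch J X U = card of {x | ∀ u ∈ U, u • x = x}`.  First reduce both cases to a description of the action of `U`:
(B) `D.Triv U` with `t1, t2`, and some `u0 ∈ U` with `ε u0 ≠ 1` (so `ε u0 = -1`, as `(ZMod 3)ˣ = {1, -1}`, `decide`): a point `x` of `X9` is
fixed iff `(ε u - 1)(x.a + t1) = 0 ∧ (ε u - 1)(x.b + t2) = 0` for all `u`, iff `x = (-t1, -t2)` (`ε u0 - 1 = -2 = 1` is a unit): one
fixed point; similarly one in each `X3 c1 c2` (`x.a = -(c1 t1 + c2 t2)`), none in `X2`, `X6`.  `1 + 1 + 0 + 1 = 1 + 1 + 1 + 0`.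
(A) `ε u = 1` for all `u ∈ U` and there is `(v1, v2)` such that: (`z1 u = 0 ∧ z2 u = 0` for all `u ∈ U`) iff `v = 0`, and `(z1 u, z2 u)` is a
multiple of `v` for all `u`, and `v = (z1 u1, z2 u1)` for some `u1 ∈ U`: a point of `X9` is fixed iff `v = 0` (9 or 0), of `X3 c1 c2` iff
`c1 v1 + c2 v2 = 0` (3 or 0), of `X2` always (2), of `X6` iff `v1 = 0` (6 or 0).  The identity
`1 + 9 [v = 0] + 2 + 3 [v1 = 0] = 3 [v2 = 0] + 3 [v1 + v2 = 0] + 3 [v1 + 2 v2 = 0] + 6 [v1 = 0]` holds for all nine `v` (`decide` /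
`fin_cases`).
`Cyc U`, `U = zpowers g`: if `ε g = 1`: case (A) with `v = (z1 g, z2 g)` (`z (g^n) = n z g`); if `ε g = -1`: `D.Triv U` with
`t1 = z1 g`, `t2 = z2 g` (`(ε g - 1) t = -2 z = z`; the set of `u` with `z u = (ε u - 1) t` is a subgroup), case (B).
`D.Triv U` with `ε = 1` on `U`: case (A) with `v = 0`.
Cardinalities: `Nat.card` of `X9 D` is `9` etc. through the obvious equivalences with `ZMod 3 × ZMod 3`, `ZMod 3`, `(ZMod 3)ˣ`
(`Nat.card (ZMod 3)ˣ = 2`: `decide`/`Nat.card_eq_fintype_card`, `ZMod.card_units`).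
-/

namespace Pool.Agent.LD

open Pool.Agent.H73.DU

variable {J : Type} [Group J]

/-- the fixed points of `U` are those of one element -/
private theorem fixed_iff (D : CocD J) (U : Subgroup J) (hU : Cyc U ∨ D.Triv U) :
    ∃ g : J, (∀ x : X9 D, x ∈ fx (X9 D) U ↔ g • x = x) ∧
      (∀ (c1 c2 : ZMod 3) (x : X3 D c1 c2), x ∈ fx (X3 D c1 c2) U ↔ g • x = x) ∧
      (∀ x : X2 D, x ∈ fx (X2 D) U ↔ g • x = x) ∧
      (∀ x : X6 D, x ∈ fx (X6 D) U ↔ g • x = x) := by
  rcases hU with ⟨g, rfl⟩ | ⟨t1, t2, ht⟩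
  · exact ⟨g, fun x => fx_zpowers, fun c1 c2 x => fx_zpowers, fun x => fx_zpowers,
      fun x => fx_zpowers⟩
  · by_cases h1 : ∀ u ∈ U, D.ε u = 1
    · have hz : ∀ u ∈ U, D.z1 u = 0 ∧ D.z2 u = 0 := by
        intro u hu
        obtain ⟨h2, h3⟩ := ht u hu
        rw [h1 u hu, Units.val_one, sub_self, zero_mul] at h2 h3
        exact ⟨h2, h3⟩
      refine ⟨1, ?_, ?_, ?_, ?_⟩
      · intro x
        rw [one_smul]
        refine ⟨fun _ => rfl, fun _ u hu => ?_⟩
        rw [X9.smul_def, h1 u hu, (hz u hu).1, (hz u hu).2]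
        simp
      · intro c1 c2 x
        rw [one_smul]
        refine ⟨fun _ => rfl, fun _ u hu => ?_⟩
        rw [X3.smul_def, h1 u hu, (hz u hu).1, (hz u hu).2]
        simp
      · intro x
        rw [one_smul]
        refine ⟨fun _ => rfl, fun _ u hu => ?_⟩
        rw [X2.smul_def, h1 u hu, one_mul]
      · intro x
        rw [one_smul]
        refine ⟨fun _ => rfl, fun _ u hu => ?_⟩
        rw [X6.smul_def, h1 u hu, (hz u hu).1, one_mul]
        simp
    · push Not at h1
      obtain ⟨u0, hu0, hne⟩ := h1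
      have hne' : ((D.ε u0 : ZMod 3) - 1) ≠ 0 := by
        intro h
        apply hne
        apply Units.ext
        rw [Units.val_one]
        exact sub_eq_zero.mp h
      obtain ⟨k1, k2⟩ := ht u0 hu0
      refine ⟨u0, ?_, ?_, ?_, ?_⟩
      · intro x
        refine ⟨fun h => h u0 hu0, fun h u hu => ?_⟩
        rw [X9.smul_def, X9.ext_iff] at h
        obtain ⟨h2, h3⟩ := h
        dsimp only at h2 h3
        rw [k1] at h2
        rw [k2] at h3
        have h4 : x.a = -t1 := by
          have : ((D.ε u0 : ZMod 3) - 1) * (x.a + t1) = 0 := by linear_combination h2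
          rcases mul_eq_zero.mp this with h | h
          · exact absurd h hne'
          · linear_combination h
        have h5 : x.b = -t2 := by
          have : ((D.ε u0 : ZMod 3) - 1) * (x.b + t2) = 0 := by linear_combination h3
          rcases mul_eq_zero.mp this with h | h
          · exact absurd h hne'
          · linear_combination h
        obtain ⟨l1, l2⟩ := ht u hu
        rw [X9.smul_def, X9.ext_iff]
        dsimp only
        rw [l1, l2, h4, h5]
        constructor <;> ring
      · intro c1 c2 x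
        refine ⟨fun h => h u0 hu0, fun h u hu => ?_⟩
        rw [X3.smul_def, X3.ext_iff] at h
        dsimp only at h
        rw [k1, k2] at h
        have h4 : x.a = -(c1 * t1 + c2 * t2) := by
          have : ((D.ε u0 : ZMod 3) - 1) * (x.a + (c1 * t1 + c2 * t2)) = 0 := by
            linear_combination h
          rcases mul_eq_zero.mp this with h | h
          · exact absurd h hne'
          · linear_combination h
        obtain ⟨l1, l2⟩ := ht u hu
        rw [X3.smul_def, X3.ext_iff]
        dsimp only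
        rw [l1, l2, h4]
        ring
      · intro x
        refine ⟨fun h => h u0 hu0, fun h => ?_⟩
        rw [X2.smul_def, X2.ext_iff] at h
        dsimp only at h
        exact absurd (mul_eq_right.mp h) hne
      · intro x
        refine ⟨fun h => h u0 hu0, fun h => ?_⟩
        rw [X6.smul_def, X6.ext_iff] at h
        exact absurd (mul_eq_right.mp h.2) hne

private def N9 (e a b : ZMod 3) : ℕ :=
  ((Finset.univ : Finset (ZMod 3 × ZMod 3)).filter
    (fun p => e * p.1 + a = p.1 ∧ e * p.2 + b = p.2)).card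

private def N3 (e c : ZMod 3) : ℕ :=
  ((Finset.univ : Finset (ZMod 3)).filter (fun p => e * p + c = p)).card

private def N2 (e : (ZMod 3)ˣ) : ℕ :=
  ((Finset.univ : Finset (ZMod 3)ˣ).filter (fun p => e * p = p)).card

private def N6 (e : (ZMod 3)ˣ) (a : ZMod 3) : ℕ :=
  ((Finset.univ : Finset (ZMod 3 × (ZMod 3)ˣ)).filter
    (fun p => (e : ZMod 3) * p.1 + a = p.1 ∧ e * p.2 = p.2)).card

private theorem ident : ∀ (e : (ZMod 3)ˣ) (a b : ZMod 3),
    1 + N9 e a b + N2 e + N3 e (1 * a + 0 * b) =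
      N3 e (0 * a + 1 * b) + N3 e (1 * a + 1 * b) + N3 e (1 * a + 2 * b) + N6 e a := by
  decide

private theorem card9 (D : CocD J) (g : J) :
    Nat.card {x : X9 D // g • x = x} = N9 (D.ε g) (D.z1 g) (D.z2 g) := by
  unfold N9
  rw [← Fintype.card_subtype, ← Nat.card_eq_fintype_card]
  refine Nat.card_congr (Equiv.subtypeEquiv
    { toFun := fun x => (x.a, x.b)
      invFun := fun p => ⟨p.1, p.2⟩
      left_inv := fun x => rfl
      right_inv := fun p => rfl } fun x => ?_)
  rw [X9.smul_def, X9.ext_iff]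
  rfl

private theorem card3 (D : CocD J) (c1 c2 : ZMod 3) (g : J) :
    Nat.card {x : X3 D c1 c2 // g • x = x} = N3 (D.ε g) (c1 * D.z1 g + c2 * D.z2 g) := by
  unfold N3
  rw [← Fintype.card_subtype, ← Nat.card_eq_fintype_card]
  refine Nat.card_congr (Equiv.subtypeEquiv
    { toFun := fun x => x.a
      invFun := fun p => ⟨p⟩
      left_inv := fun x => rfl
      right_inv := fun p => rfl } fun x => ?_)
  rw [X3.smul_def, X3.ext_iff]
  rfl

private theorem card2 (D : CocD J) (g : J) :
    Nat.card {x : X2 D // g • x = x} = N2 (D.ε g) := by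
  unfold N2
  rw [← Fintype.card_subtype, ← Nat.card_eq_fintype_card]
  refine Nat.card_congr (Equiv.subtypeEquiv
    { toFun := fun x => x.e
      invFun := fun p => ⟨p⟩
      left_inv := fun x => rfl
      right_inv := fun p => rfl } fun x => ?_)
  rw [X2.smul_def, X2.ext_iff]
  rfl

private theorem card6 (D : CocD J) (g : J) :
    Nat.card {x : X6 D // g • x = x} = N6 (D.ε g) (D.z1 g) := by
  unfold N6
  rw [← Fintype.card_subtype, ← Nat.card_eq_fintype_card]
  refine Nat.card_congr (Equiv.subtypeEquiv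
    { toFun := fun x => (x.a, x.e)
      invFun := fun p => ⟨p.1, p.2⟩
      left_inv := fun x => rfl
      right_inv := fun p => rfl } fun x => ?_)
  rw [X6.smul_def, X6.ext_iff]
  rfl

private theorem pch_eq {X : Type} [MulAction J X] {U : Subgroup J} {g : J}
    (h : ∀ x : X, x ∈ fx X U ↔ g • x = x) :
    pch J X U = (Nat.card {x : X // g • x = x} : ℤ) := by
  unfold pch
  congr 1
  exact Nat.card_congr (Equiv.subtypeEquivRight h)

theorem marks_rel (D : CocD J) (U : Subgroup J) (hU : Cyc U ∨ D.Triv U) :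
    1 + pch J (X9 D) U + pch J (X2 D) U + pch J (X3 D 1 0) U =
      pch J (X3 D 0 1) U + pch J (X3 D 1 1) U + pch J (X3 D 1 2) U + pch J (X6 D) U := by
  obtain ⟨g, h9, h3, h2, h6⟩ := fixed_iff D U hU
  rw [pch_eq h9, pch_eq (h3 1 0), pch_eq h2, pch_eq (h3 0 1), pch_eq (h3 1 1), pch_eq (h3 1 2),
    pch_eq h6, card9, card3, card3, card3, card3, card2, card6]
  exact_mod_cast ident (D.ε g) (D.z1 g) (D.z2 g)

end Pool.Agent.LD
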