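import Pool.Agent.LD.L.Defs

/-!
# LD/L-Orb: transitivity, stabilizers, base points with even local orbits

PLAN.  `trans9` etc.: given `x, y` in `X9`: `n` with `ε n = 1`, `z n = y - x` (`hD.surj`).  `X3 c1 c2` with `(c1, c2) ≠ 0`: choose `a, b` with
`c1 a + c2 b = y.a - x.a` (`decide` over the cases, e.g. `(c1, c2) = (1,0), (0,1), (1,1), (1,2)`).  `X2`: an element with `ε g ≠ 1`
(`hD.ne`) acts transitively on the two elements.  `X6`: first `g` to correct the sign, then `n` with `ε n = 1` to correct `a`.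
`stab_*`: open: the stabilizer contains the open subgroup `hD.op` (`Subgroup.isOpen_mono`); index = cardinality
(`MulAction.index_stabilizer` and transitivity, as `T_stab` in H73/DU/Rel.lean): `9, 3, 2, 6`.
`pc_stab`: `pc (stabilizer x) = pch J X` for a transitive set (`MulAction.ofQuotientStabilizer`, as in the proof of
`mark_eq_pc`, H73/AL/Extract.lean).
`base_*`: let `U` be such that `Cyc U ∨ D.Triv U` and `ε u0 ≠ 1` for some `u0 ∈ U`.  Then `D.Triv U` in both cases (if `U = zpowers g` then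
`ε g ≠ 1`, i.e. `ε g = -1`, and `t = z g` works, see LD/L/Marks).  With `t1, t2`: the point `x = (-t1 + 1, -t2)` of `X9` satisfies
`u • x = x → ε u = 1` (`u • x = (-t1 + ε u, -t2)`); in `X3 c1 c2`: `x = -(c1 t1 + c2 t2) + 1`; in `X2`, `X6`: any point (`ε u * e = e`).
-/

namespace Pool.Agent.LD

open Pool.Agent.H73.DU MulAction

variable {J : Type} [Group J]

/-- transitive set with open stabilizers of a given index, with a base point which sees the sign on `U` -/
def GoodSet (D : CocD J) [TopologicalSpace J] (U : Subgroup J) (X : Type) [MulAction J X]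
    (n : ℕ) : Prop :=
  ∃ x : X, IsOpen (stabilizer J x : Set J) ∧ (stabilizer J x).index = n ∧
    pc (stabilizer J x) = pch J X ∧ ∀ u ∈ U, u • x = x → D.ε u = 1

private theorem good_of [TopologicalSpace J] {D : CocD J} {U : Subgroup J} {X : Type}
    [MulAction J X] {n : ℕ} (x : X) (hop : IsOpen (stabilizer J x : Set J))
    (htr : ∀ y : X, ∃ g : J, g • x = y) (hcard : Nat.card X = n)
    (hb : ∀ u ∈ U, u • x = x → D.ε u = 1) : GoodSet D U X n := by
  refine ⟨x, hop, ?_, ?_, hb⟩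
  · rw [index_stabilizer]
    have : orbit J x = Set.univ := Set.eq_univ_iff_forall.2 fun y => htr y
    rw [this, Set.ncard_univ, hcard]
  · unfold pc
    refine pch_congr (Equiv.ofBijective (MulAction.ofQuotientStabilizer J x)
      ⟨MulAction.injective_ofQuotientStabilizer J x, fun y => ?_⟩) fun g y => ?_
    · obtain ⟨g, hg⟩ := htr y
      exact ⟨(g : J ⧸ MulAction.stabilizer J x), hg⟩
    · exact MulAction.ofQuotientStabilizer_smul J x g y

private theorem unit_aux : ∀ e e' : (ZMod 3)ˣ, e ≠ 1 → e' ≠ 1 → e = e' := by decide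

private theorem unit_aux2 : ∀ e : (ZMod 3)ˣ, e ≠ 1 → ((e : ZMod 3) - 1) = 1 := by decide

private theorem lin_aux : ∀ c1 c2 t : ZMod 3, ¬ (c1 = 0 ∧ c2 = 0) →
    ∃ a b : ZMod 3, c1 * a + c2 * b = t := by decide

private theorem eps_surj [TopologicalSpace J] {D : CocD J} (hD : D.Good) (e : (ZMod 3)ˣ) :
    ∃ g, D.ε g = e := by
  by_cases he : e = 1
  · exact ⟨1, by rw [map_one, he]⟩
  · obtain ⟨g, hg⟩ := hD.ne
    exact ⟨g, unit_aux _ _ hg he⟩

private theorem coc_triv (D : CocD J) (z : J → ZMod 3)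
    (hz : ∀ g h, z (g * h) = z g + (D.ε g : ZMod 3) * z h) (g : J) (hg : D.ε g ≠ 1) :
    ∀ u ∈ Subgroup.zpowers g, z u = ((D.ε u : ZMod 3) - 1) * z g := by
  have hz1 : z 1 = 0 := by
    have h := hz 1 1
    rw [mul_one, map_one, Units.val_one, one_mul] at h
    exact left_eq_add.1 h
  intro u hu
  have hle : Subgroup.zpowers g ≤ Subgroup.closure {g} := (Subgroup.zpowers_eq_closure g).le
  have hu' := hle hu
  induction hu' using Subgroup.closure_induction with
  | mem x hx =>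
    rw [Set.mem_singleton_iff.1 hx, unit_aux2 _ hg, one_mul]
  | one => rw [hz1, map_one, Units.val_one, sub_self, zero_mul]
  | mul x y hx hy h1 h2 =>
    have hx' : x ∈ Subgroup.zpowers g := by
      rw [Subgroup.zpowers_eq_closure]
      exact hx
    have hy' : y ∈ Subgroup.zpowers g := by
      rw [Subgroup.zpowers_eq_closure]
      exact hy
    rw [hz, h1 hx', h2 hy', map_mul, Units.val_mul]
    ring
  | inv x hx h1 =>
    have hx' : x ∈ Subgroup.zpowers g := by
      rw [Subgroup.zpowers_eq_closure]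
      exact hx
    have h3 := hz x⁻¹ x
    rw [inv_mul_cancel, hz1, h1 hx'] at h3
    have h4 : (D.ε x⁻¹ : ZMod 3) * (D.ε x : ZMod 3) = 1 := by
      rw [← Units.val_mul, ← map_mul, inv_mul_cancel, map_one, Units.val_one]
    have h5 : z x⁻¹ = - ((D.ε x⁻¹ : ZMod 3) * (((D.ε x : ZMod 3) - 1) * z g)) := by
      rw [eq_neg_iff_add_eq_zero]
      exact h3.symm
    rw [h5]
    calc - ((D.ε x⁻¹ : ZMod 3) * (((D.ε x : ZMod 3) - 1) * z g))
        = ((D.ε x⁻¹ : ZMod 3) - (D.ε x⁻¹ : ZMod 3) * (D.ε x : ZMod 3)) * z g := by ring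
      _ = _ := by rw [h4]

private theorem triv_of (D : CocD J) (U : Subgroup J) (hU : Cyc U ∨ D.Triv U)
    (hne : ∃ u ∈ U, D.ε u ≠ 1) : D.Triv U := by
  rcases hU with ⟨g, rfl⟩ | h
  · have hg : D.ε g ≠ 1 := by
      intro h
      obtain ⟨u, hu, hu1⟩ := hne
      obtain ⟨k, rfl⟩ := Subgroup.mem_zpowers_iff.1 hu
      exact hu1 (by rw [map_zpow, h, one_zpow])
    exact ⟨D.z1 g, D.z2 g, fun u hu => ⟨coc_triv D D.z1 D.h1 g hg u hu,
      coc_triv D D.z2 D.h2 g hg u hu⟩⟩
  · exact h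

private theorem card9 (D : CocD J) : Nat.card (X9 D) = 9 := by
  have e : X9 D ≃ ZMod 3 × ZMod 3 :=
    ⟨fun x => (x.a, x.b), fun x => ⟨x.1, x.2⟩, fun _ => rfl, fun _ => rfl⟩
  rw [Nat.card_congr e]
  simp [Nat.card_eq_fintype_card]

private theorem card3 (D : CocD J) (c1 c2 : ZMod 3) : Nat.card (X3 D c1 c2) = 3 := by
  have e : X3 D c1 c2 ≃ ZMod 3 := ⟨fun x => x.a, fun x => ⟨x⟩, fun _ => rfl, fun _ => rfl⟩
  rw [Nat.card_congr e]
  simp [Nat.card_eq_fintype_card]

private theorem cardU : Nat.card (ZMod 3)ˣ = 2 := by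
  rw [Nat.card_eq_fintype_card]
  decide

private theorem card2 (D : CocD J) : Nat.card (X2 D) = 2 := by
  have e : X2 D ≃ (ZMod 3)ˣ := ⟨fun x => x.e, fun x => ⟨x⟩, fun _ => rfl, fun _ => rfl⟩
  rw [Nat.card_congr e, cardU]

private theorem card6 (D : CocD J) : Nat.card (X6 D) = 6 := by
  have e : X6 D ≃ ZMod 3 × (ZMod 3)ˣ :=
    ⟨fun x => (x.a, x.e), fun x => ⟨x.1, x.2⟩, fun _ => rfl, fun _ => rfl⟩
  rw [Nat.card_congr e, Nat.card_prod, cardU, Nat.card_eq_fintype_card, ZMod.card]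

variable [TopologicalSpace J] [IsTopologicalGroup J] {D : CocD J} (hD : D.Good)
  (U : Subgroup J) (hU : Cyc U ∨ D.Triv U) (hne : ∃ u ∈ U, D.ε u ≠ 1)

include hD hU hne

theorem good9 : GoodSet D U (X9 D) 9 := by
  obtain ⟨t1, t2, ht⟩ := triv_of D U hU hne
  refine good_of (⟨-t1 + 1, -t2⟩ : X9 D) ?_ ?_ (card9 D) ?_
  · obtain ⟨W, hW, hWz⟩ := hD.op
    refine Subgroup.isOpen_mono ?_ hW
    intro u hu
    obtain ⟨h1, h2, h3⟩ := hWz u hu
    rw [mem_stabilizer_iff, X9.smul_def, h1, h2, h3]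
    simp
  · intro y
    obtain ⟨n, h1, h2, h3⟩ := hD.surj (y.a - (-t1 + 1)) (y.b - (-t2))
    refine ⟨n, ?_⟩
    rw [X9.smul_def, h1, h2, h3]
    ext
    · simp
    · simp
  · intro u hu h
    rw [X9.smul_def, (ht u hu).1, (ht u hu).2] at h
    have h1 := congrArg X9.a h
    simp only at h1
    apply Units.ext
    rw [Units.val_one]
    linear_combination h1

theorem good3 (c1 c2 : ZMod 3) (hc : ¬ (c1 = 0 ∧ c2 = 0)) : GoodSet D U (X3 D c1 c2) 3 := by
  obtain ⟨t1, t2, ht⟩ := triv_of D U hU hne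
  refine good_of (⟨-(c1 * t1 + c2 * t2) + 1⟩ : X3 D c1 c2) ?_ ?_ (card3 D c1 c2) ?_
  · obtain ⟨W, hW, hWz⟩ := hD.op
    refine Subgroup.isOpen_mono ?_ hW
    intro u hu
    obtain ⟨h1, h2, h3⟩ := hWz u hu
    rw [mem_stabilizer_iff, X3.smul_def, h1, h2, h3]
    simp
  · intro y
    obtain ⟨a, b, hab⟩ := lin_aux c1 c2 (y.a - (-(c1 * t1 + c2 * t2) + 1)) hc
    obtain ⟨n, h1, h2, h3⟩ := hD.surj a b
    refine ⟨n, ?_⟩
    rw [X3.smul_def, h1, h2, h3, hab]
    ext
    simp
  · intro u hu h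
    rw [X3.smul_def, (ht u hu).1, (ht u hu).2] at h
    have h1 := congrArg X3.a h
    simp only at h1
    apply Units.ext
    rw [Units.val_one]
    linear_combination h1

theorem good2 : GoodSet D U (X2 D) 2 := by
  refine good_of (⟨1⟩ : X2 D) ?_ ?_ (card2 D) ?_
  · obtain ⟨W, hW, hWz⟩ := hD.op
    refine Subgroup.isOpen_mono ?_ hW
    intro u hu
    obtain ⟨h1, h2, h3⟩ := hWz u hu
    rw [mem_stabilizer_iff, X2.smul_def, h1, one_mul]
  · intro y
    obtain ⟨g, hg⟩ := eps_surj hD y.e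
    refine ⟨g, ?_⟩
    rw [X2.smul_def, hg, mul_one]
  · intro u hu h
    rw [X2.smul_def] at h
    have h1 := congrArg X2.e h
    simpa using h1

theorem good6 : GoodSet D U (X6 D) 6 := by
  refine good_of (⟨0, 1⟩ : X6 D) ?_ ?_ (card6 D) ?_
  · obtain ⟨W, hW, hWz⟩ := hD.op
    refine Subgroup.isOpen_mono ?_ hW
    intro u hu
    obtain ⟨h1, h2, h3⟩ := hWz u hu
    rw [mem_stabilizer_iff, X6.smul_def, h1, h2]
    simp
  · intro y
    obtain ⟨g, hg⟩ := eps_surj hD y.e
    obtain ⟨n, h1, h2, h3⟩ := hD.surj (y.a - D.z1 g) 0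
    refine ⟨n * g, ?_⟩
    rw [mul_smul, X6.smul_def, X6.smul_def, h1, h2, hg]
    ext
    · simp
    · simp
  · intro u hu h
    rw [X6.smul_def] at h
    have h1 := congrArg X6.e h
    simpa using h1

end Pool.Agent.LD
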