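import Pool.Agent.LD.L.Apx
import Pool.Agent.LD.L.ExEmb
import Pool.Agent.LD.L.Deg
import Pool.Agent.LD.L.Coc
import Pool.Agent.LD.L.Marks
import Pool.Agent.LD.L.Orb
import Pool.Agent.LD.L.Eps
import Pool.Agent.LD.L.Fld

/-!
# LD/L-RelK: `K` is related to extensions of degree 2, 3, 6, 9 with even local degree at `v`

PLAN.  `p` = the prime below `v` (`(p : 𝓞 K) ∈ v.asIdeal`; e.g. the characteristic of the residue field, `exists_prime_mem`-like in
QD/In/Ex.lean).  `exists_emb`: `φ` with `IsPl p φ v`.  `x : Kˣ` with `ordK v x = 1` (`valuation_exists_uniformizer`), `¬ LSq v x` (`even_of_LSq`).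
`exists_eps`: `s`, `ε` on `J = stb φ`.  `T' = insert p T`, `nice_rat T'`, `Nice.sub` with `stab_open`: `Nice J (res J (famT T'))`.
`hne`: `Dv = (decomp ℚ_[p] (emb p)).subgroupOf J`; some `u ∈ Dv` has `ε u ≠ 1`: otherwise `lsq_of_fix` (for `ψ = φ`) gives `LSq v x`.
`exists_coc`: `D`.  `Dv ∈ res J (famT T')`: `Dv.map J.subtype = decomp ⊓ J` is in `famT T'` by `Or.inr ⟨p, _, 1, ..⟩` (`cj_one`), so
`Cyc Dv ∨ D.Triv Dv`.  For each of the eight sets `X9`, `X2`, `X3 1 0`, `X3 0 1`, `X3 1 1`, `X3 1 2`, `X6` (seven sets): `good*` gives `x0`;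
`H = (stabilizer J x0).map J.subtype`, open (`open_map`), index `n * J.index` (`Subgroup.index_map_subtype`); `exists_fld`: `F`, `ψ`,
`stb ψ = H`, `mark F = pc H`, degree `n ∈ {2, 3, 6, 9}` divides `18`.  `exists_isPl p ψ`: `w`; `isPl_over`: `Over v w`.
`LSq w (x in F)`: `lsq_of_fix` with the same `s` (`ψ (algebraMap x) = φ x`): `g ∈ decomp`, `g ∈ stb ψ = H`: `g ∈ J` fixes `x0`, so
`ε g = 1` and `g s = s`.  `two_dvd_of_lsq`: `2 ∣ locDeg K w`.  This is a lemma `real_set` for a `GoodSet`.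
Relation: for `U ∈ famT T ⊆ famT T'`: `pc H U` is `ind J (pc (stabilizer x0)) U` (`ind_pc`), so the difference of the two sides is
`ind J` of a function which vanishes on `res J (famT T')` by `marks_rel` (as in the proof of `real_p`, Helper12/SD/Rel.lean: `ind` is
additive, evaluate the sum over `J \ GQ`: `(cj x.out U).subgroupOf J ∈ res J (famT T')`); `mark K = pc J = ind J 1` (`mark_eq_pc`, `ind_one`).
`Rel T (K :: [F9, F2, F3 1 0]) [F3 0 1, F3 1 1, F3 1 2, F6]`.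
-/

namespace Pool.Agent.LD

open NumberField IsDedekindDomain Pool.Agent.HWR Pool.Agent.QD Pool.Agent.H73.DU Pool.Agent.H73.AL

/-- extensions of degree dividing `18` with a place over `v` of even local degree -/
def Ev (K : NF) (v : HeightOneSpectrum (𝓞 K.F)) (F : NF) : Prop :=
  ∃ (_ : Algebra K.F F.F) (w : HeightOneSpectrum (𝓞 F.F)), Module.finrank K.F F.F ∣ 18 ∧
    Over v w ∧ 2 ∣ locDeg K.F w

private theorem rk_prime_mem {K : Type} [Field K] [NumberField K]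
    (v : HeightOneSpectrum (𝓞 K)) (n : ℕ) :
    n ≠ 0 → ((n : ℕ) : 𝓞 K) ∈ v.asIdeal →
      ∃ p : ℕ, p.Prime ∧ ((p : ℕ) : 𝓞 K) ∈ v.asIdeal := by
  induction n using induction_on_primes with
  | zero => exact fun h => absurd rfl h
  | one =>
    intro _ h
    exfalso
    rw [Nat.cast_one] at h
    exact v.isPrime.ne_top ((Ideal.eq_top_iff_one _).2 h)
  | prime_mul p a hp ih =>
    intro h1 h2
    rw [Nat.cast_mul] at h2
    rcases v.isPrime.mem_or_mem h2 with h3 | h3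
    · exact ⟨p, hp, h3⟩
    · exact ih (fun h => h1 (by rw [h, mul_zero])) h3

private theorem rk_exists_p {K : Type} [Field K] [NumberField K]
    (v : HeightOneSpectrum (𝓞 K)) : ∃ p : ℕ, p.Prime ∧ ((p : ℕ) : 𝓞 K) ∈ v.asIdeal :=
  rk_prime_mem v (Ideal.absNorm v.asIdeal)
    (fun h => v.ne_bot (Ideal.absNorm_eq_zero_iff.1 h)) (Ideal.absNorm_mem _)

private theorem rk_exists_x {K : Type} [Field K] [NumberField K]
    (v : HeightOneSpectrum (𝓞 K)) : ∃ x : Kˣ, ¬ LSq v x := by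
  obtain ⟨π, hπ⟩ := v.valuation_exists_uniformizer K
  have hπ0 : π ≠ 0 := by
    rintro rfl
    rw [map_zero] at hπ
    exact WithZero.exp_ne_zero hπ.symm
  refine ⟨Units.mk0 π hπ0, fun h => ?_⟩
  have h1 : ordK v (Units.mk0 π hπ0) = 1 := by
    rw [ordK_eq_iff]
    simpa using hπ
  have h2 := even_of_LSq h
  rw [h1] at h2
  exact Int.not_even_one h2

private theorem rk_ind_congr (T : Finset ℕ) (J : Subgroup GQ) [Fintype (GQ ⧸ J)]
    (f g : Subgroup J → ℤ) (h : ∀ V ∈ res J (famT T), f V = g V) (U : Subgroup GQ)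
    (hU : U ∈ famT T) : ind J f U = ind J g U := by
  classical
  change (∑ x : GQ ⧸ J, _) = (∑ x : GQ ⧸ J, _)
  refine Finset.sum_congr rfl fun x _ => ?_
  split_ifs with hx
  · apply h
    change ((cj x.out U).subgroupOf J).map J.subtype ∈ famT T
    rw [Subgroup.subgroupOf_map_subtype, inf_eq_left.2 hx]
    exact (nice_rat T).conj U hU _
  · rfl

private theorem rk_famT_mono {T T' : Finset ℕ} (h : T ⊆ T') : famT T ⊆ famT T' := by
  rintro U (hU | ⟨l, hl, a, hlT, hU⟩)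
  · exact Or.inl hU
  · exact Or.inr ⟨l, hl, a, h hlT, hU⟩

/-- the field of a good set -/
private theorem rk_real (p : ℕ) [Fact p.Prime] (K : NF) (v : HeightOneSpectrum (𝓞 K.F))
    (φ : K.F →+* AlgebraicClosure ℚ) (hφ : IsPl p φ v) (x : (K.F)ˣ) (hx : ¬ LSq v x)
    (s : AlgebraicClosure ℚ) (hs : s ^ 2 = φ (x : K.F)) (D : CocD (stb φ))
    (hε : ∀ g : stb φ, D.ε g = 1 ↔ (g : GQ) s = s) (X : Type) [MulAction (stb φ) X] (n : ℕ)
    (hn : n ∣ 18) (hg : GoodSet D ((decomp ℚ_[p] (emb p)).subgroupOf (stb φ)) X n) :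
    ∃ F : NF, Ev K v F ∧ ∃ H : Subgroup (stb φ), IsOpen (H : Set (stb φ)) ∧
      pc H = pch (stb φ) X ∧ mark F.F = pc (H.map (stb φ).subtype) := by
  obtain ⟨x0, ho, hi, hpc, hfix⟩ := hg
  have hJo : IsOpen (stb φ : Set GQ) := stab_open K.F φ
  obtain ⟨F, alg, ψ, h1, h2, h3, h4⟩ := exists_fld K φ
    ((MulAction.stabilizer (stb φ) x0).map (stb φ).subtype) (open_map hJo ho)
    (Subgroup.map_subtype_le _) (n := n) (by rw [Subgroup.index_map_subtype, hi])
  obtain ⟨w, hw⟩ := exists_isPl p ψ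
  have hover : Over v w := isPl_over h1 hφ hw
  have hF : LSq w (Units.map (algebraMap K.F F.F : K.F →* F.F) x) := by
    apply lsq_of_fix p ψ hw _ s
    · rw [hs, ← h1]
      rfl
    · intro g hgd hgs
      rw [h2] at hgs
      obtain ⟨j, hj, rfl⟩ := Subgroup.mem_map.1 hgs
      have h5 := hfix j (Subgroup.mem_subgroupOf.2 hgd) (MulAction.mem_stabilizer_iff.1 hj)
      exact (hε j).1 h5
  refine ⟨F, ⟨alg, w, ?_, hover, two_dvd_of_lsq F.F x v hx w hover hF⟩, _, ho, hpc, h3⟩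
  rw [h4]
  exact hn

theorem rel_even (T : Finset ℕ) (hTp : ∀ p ∈ T, p.Prime) (K : NF)
    (v : HeightOneSpectrum (𝓞 K.F)) : ∃ A B : List NF, (∀ F ∈ A ++ B, Ev K v F) ∧
      Rel T (K :: A) B := by
  classical
  have _ := hTp
  obtain ⟨p, hp, hpv⟩ := rk_exists_p v
  have : Fact p.Prime := ⟨hp⟩
  obtain ⟨φ, hφ⟩ := exists_emb p K.F v hpv
  obtain ⟨x, hx⟩ := rk_exists_x v
  obtain ⟨s, ε, hs, hεo, hε⟩ := exists_eps K.F φ x
  have hJo : IsOpen (stb φ : Set GQ) := stab_open K.F φ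
  have hG := nice_rat (insert p T)
  have hGJ := hG.sub hJo
  have hne : ∃ u ∈ (decomp ℚ_[p] (emb p)).subgroupOf (stb φ), ε u ≠ 1 := by
    by_contra hcon
    push Not at hcon
    apply hx
    apply lsq_of_fix p φ hφ x s hs
    intro g hgd hgs
    exact (hε ⟨g, hgs⟩).1 (hcon ⟨g, hgs⟩ (Subgroup.mem_subgroupOf.2 hgd))
  obtain ⟨D, hDε, hD, hDU⟩ := exists_coc hGJ ε hεo (by
    obtain ⟨u, -, hu⟩ := hne
    exact ⟨u, hu⟩)
  have hε' : ∀ g : stb φ, D.ε g = 1 ↔ (g : GQ) s = s := by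
    rw [hDε]
    exact hε
  have hne' : ∃ u ∈ (decomp ℚ_[p] (emb p)).subgroupOf (stb φ), D.ε u ≠ 1 := by
    rw [hDε]
    exact hne
  have hUdv := hDU ((decomp ℚ_[p] (emb p)).subgroupOf (stb φ)) (by
    change ((decomp ℚ_[p] (emb p)).subgroupOf (stb φ)).map (stb φ).subtype ∈ famT (insert p T)
    rw [Subgroup.subgroupOf_map_subtype]
    refine Or.inr ⟨p, inferInstance, 1, Finset.mem_insert_self p T, ?_⟩
    rw [cj_one]
    exact inf_le_left)
  obtain ⟨F9, e9, H9, o9, c9, m9⟩ := rk_real p K v φ hφ x hx s hs D hε' (X9 D) 9 (by norm_num)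
    (good9 hD _ hUdv hne')
  obtain ⟨F2, e2, H2, o2, c2, m2⟩ := rk_real p K v φ hφ x hx s hs D hε' (X2 D) 2 (by norm_num)
    (good2 hD _ hUdv hne')
  obtain ⟨F6, e6, H6, o6, c6, m6⟩ := rk_real p K v φ hφ x hx s hs D hε' (X6 D) 6 (by norm_num)
    (good6 hD _ hUdv hne')
  obtain ⟨Fa, ea, Ha, oa, ca, ma⟩ := rk_real p K v φ hφ x hx s hs D hε' (X3 D 1 0) 3
    (by norm_num) (good3 hD _ hUdv hne' 1 0 (by decide))
  obtain ⟨Fb, eb, Hb, ob, cb, mb⟩ := rk_real p K v φ hφ x hx s hs D hε' (X3 D 0 1) 3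
    (by norm_num) (good3 hD _ hUdv hne' 0 1 (by decide))
  obtain ⟨Fc, ec, Hc, oc, cc, mc⟩ := rk_real p K v φ hφ x hx s hs D hε' (X3 D 1 1) 3
    (by norm_num) (good3 hD _ hUdv hne' 1 1 (by decide))
  obtain ⟨Fd, ed, Hd, od, cd, md⟩ := rk_real p K v φ hφ x hx s hs D hε' (X3 D 1 2) 3
    (by norm_num) (good3 hD _ hUdv hne' 1 2 (by decide))
  refine ⟨[F9, F2, Fa], [Fb, Fc, Fd, F6], ?_, ?_⟩
  · intro F hF
    simp only [List.cons_append, List.nil_append, List.mem_cons, List.not_mem_nil,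
      or_false] at hF
    rcases hF with rfl | rfl | rfl | rfl | rfl | rfl | rfl
    · exact e9
    · exact e2
    · exact ea
    · exact eb
    · exact ec
    · exact ed
    · exact e6
  · intro U hU
    have hU' : U ∈ famT (insert p T) := rk_famT_mono (Finset.subset_insert p T) hU
    have := hG.fin hJo
    have : Fintype (GQ ⧸ stb φ) := Fintype.ofFinite _
    have key := rk_ind_congr (insert p T) (stb φ)
      (1 + pch (stb φ) (X9 D) + pch (stb φ) (X2 D) + pch (stb φ) (X3 D 1 0))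
      (pch (stb φ) (X3 D 0 1) + pch (stb φ) (X3 D 1 1) + pch (stb φ) (X3 D 1 2) +
        pch (stb φ) (X6 D)) (fun V hV => marks_rel D V (hDU V hV)) U hU'
    have hm : ∀ (H : Subgroup (stb φ)), IsOpen (H : Set (stb φ)) → ind (stb φ) (pc H) =
        pc (H.map (stb φ).subtype) := by
      intro H hH
      have := hGJ.fin hH
      exact ind_pc (stb φ) H
    simp only [map_add, Pi.add_apply] at key
    rw [ind_one, ← c9, ← c2, ← ca, ← cb, ← cc, ← cd, ← c6, hm _ o9, hm _ o2, hm _ oa, hm _ ob,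
      hm _ oc, hm _ od, hm _ o6, ← m9, ← m2, ← ma, ← mb, ← mc, ← md, ← m6] at key
    have hK : mark K.F = pc (stb φ) := mark_eq_pc K.F φ
    rw [← hK] at key
    simp only [List.map_cons, List.map_nil, List.sum_cons, List.sum_nil]
    linarith

end Pool.Agent.LD
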