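import Pool.Agent.LD.L.Defs

/-!
# LD/L-Pl: the place of an embedding

Algebraic integers have norm at most one at the fixed embedding in the algebraic closure of the
`p`-adic numbers; the elements of norm less than one form a prime ideal, whose valuation compares
with the norm.
-/

namespace Pool.Agent.LD

open NumberField IsDedekindDomain Pool.Agent.HWR Pool.Agent.QD Pool.Agent.H73.DU

variable (p : ℕ) [Fact p.Prime] {F : Type} [Field F] [NumberField F]
  (ψ : F →+* AlgebraicClosure ℚ)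

private theorem pl_norm_le {y : AlgebraicClosure ℚ_[p]} (hy : IsIntegral ℤ y) : ‖y‖ ≤ 1 := by
  have h1 : IsIntegral (PadicAlgCl.valued p).v.integer y := hy.tower_top
  have h2 := (Valuation.integer.integers (PadicAlgCl.valued p).v).mem_of_integral h1
  have h3 : Valued.v y ≤ (1 : NNReal) := h2
  rw [← PadicAlgCl.valuation_coe p y]
  exact_mod_cast h3

private theorem pl_norm_p : ‖((p : ℕ) : AlgebraicClosure ℚ_[p])‖ = (p : ℝ)⁻¹ := by
  rw [← map_natCast (algebraMap ℚ_[p] (AlgebraicClosure ℚ_[p])), PadicAlgCl.norm_extends,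
    Padic.norm_p]

private theorem pl_p_lt : (p : ℝ)⁻¹ < 1 := by
  have h : (1 : ℝ) < p := by exact_mod_cast (Fact.out : p.Prime).one_lt
  exact inv_lt_one_of_one_lt₀ h

theorem int_le_one (x : 𝓞 F) : ‖emb p (ψ (x : F))‖ ≤ 1 := by
  apply pl_norm_le
  have h1 : IsIntegral ℤ (x : F) := x.2
  exact map_isIntegral_int ((emb p).comp ψ) h1

/-- the prime ideal of the embedding -/
private noncomputable def plId : Ideal (𝓞 F) where
  carrier := {x | ‖emb p (ψ (x : F))‖ < 1}
  add_mem' := by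
    intro x y hx hy
    have h1 : emb p (ψ ((x + y : 𝓞 F) : F)) = emb p (ψ (x : F)) + emb p (ψ (y : F)) := by
      rw [← map_add, ← map_add]
      rfl
    show ‖emb p (ψ ((x + y : 𝓞 F) : F))‖ < 1
    rw [h1]
    exact lt_of_le_of_lt (PadicAlgCl.isNonarchimedean p _ _) (max_lt hx hy)
  zero_mem' := by
    show ‖emb p (ψ ((0 : 𝓞 F) : F))‖ < 1
    have h1 : ((0 : 𝓞 F) : F) = 0 := rfl
    rw [h1, map_zero, map_zero, norm_zero]
    exact one_pos
  smul_mem' := by
    intro c x hx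
    have h1 : emb p (ψ ((c • x : 𝓞 F) : F)) = emb p (ψ (c : F)) * emb p (ψ (x : F)) := by
      rw [← map_mul, ← map_mul]
      rfl
    show ‖emb p (ψ ((c • x : 𝓞 F) : F))‖ < 1
    rw [h1, norm_mul]
    exact lt_of_le_of_lt (mul_le_of_le_one_left (norm_nonneg _) (int_le_one p ψ c)) hx

private theorem mem_plId {x : 𝓞 F} : x ∈ plId p ψ ↔ ‖emb p (ψ (x : F))‖ < 1 := Iff.rfl

private theorem pl_p_mem : ((p : ℕ) : 𝓞 F) ∈ plId p ψ := by
  rw [mem_plId]
  have h1 : (((p : ℕ) : 𝓞 F) : F) = (p : F) := by simp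
  rw [h1, map_natCast, map_natCast, pl_norm_p]
  exact pl_p_lt p

theorem exists_isPl : ∃ w : HeightOneSpectrum (𝓞 F), IsPl p ψ w := by
  have hp : (plId p ψ).IsPrime := by
    refine ⟨?_, ?_⟩
    · intro h
      have h1 : (1 : 𝓞 F) ∈ plId p ψ := by
        rw [h]
        trivial
      rw [mem_plId] at h1
      have h2 : ((1 : 𝓞 F) : F) = 1 := rfl
      rw [h2, map_one, map_one, norm_one] at h1
      exact lt_irrefl _ h1
    · intro x y hxy
      rw [mem_plId] at hxy
      have h1 : emb p (ψ ((x * y : 𝓞 F) : F)) = emb p (ψ (x : F)) * emb p (ψ (y : F)) := by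
        rw [← map_mul, ← map_mul]
        rfl
      rw [h1, norm_mul] at hxy
      rw [mem_plId, mem_plId]
      by_contra hcon
      push Not at hcon
      have h2 := one_le_mul_of_one_le_of_one_le hcon.1 hcon.2
      linarith
  have hb : plId p ψ ≠ ⊥ := by
    intro h
    have h1 := pl_p_mem p ψ
    rw [h] at h1
    have h2 : ((p : ℕ) : 𝓞 F) = 0 := h1
    have h3 : p = 0 := by exact_mod_cast h2
    exact (Fact.out : p.Prime).ne_zero h3
  exact ⟨⟨plId p ψ, hp, hb⟩, fun x => Iff.rfl⟩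

variable {p ψ} {w : HeightOneSpectrum (𝓞 F)}

theorem isPl_mem (hw : IsPl p ψ w) : (p : 𝓞 F) ∈ w.asIdeal := (hw _).2 (pl_p_mem p ψ)

theorem isPl_over {K : Type} [Field K] [NumberField K] [Algebra K F]
    {φ : K →+* AlgebraicClosure ℚ} (h : ψ.comp (algebraMap K F) = φ)
    {v : HeightOneSpectrum (𝓞 K)} (hv : IsPl p φ v) (hw : IsPl p ψ w) : Over v w := by
  unfold Over
  ext x
  have h1 : ψ ((algebraMap (𝓞 K) (𝓞 F) x : 𝓞 F) : F) = φ (x : K) := by
    rw [← h]
    rfl
  rw [Ideal.mem_comap, hw, hv, h1]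

theorem isPl_val (hw : IsPl p ψ w) {y : F} (hy : ‖emb p (ψ y)‖ ≤ 1) : w.valuation F y ≤ 1 := by
  by_contra hcon
  push Not at hcon
  have hy0 : y ≠ 0 := by
    rintro rfl
    rw [map_zero] at hcon
    exact not_lt_zero' hcon
  have h1 : w.valuation F y⁻¹ < 1 := by
    rw [map_inv₀]
    exact inv_lt_one_of_one_lt₀ hcon
  obtain ⟨n, d, hnd⟩ := w.exists_primeCompl_mul_eq_of_integer (K := F) y⁻¹ h1.le
  have hd1 : w.valuation F (algebraMap (𝓞 F) F (d : 𝓞 F)) = 1 := by
    rw [HeightOneSpectrum.valuation_eq_one_iff_notMem]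
    exact d.2
  have hn : n ∈ w.asIdeal := by
    rw [← HeightOneSpectrum.valuation_lt_one_iff_mem (K := F)]
    show w.valuation F (algebraMap (𝓞 F) F n) < 1
    rw [← hnd, map_mul, hd1, mul_one]
    exact h1
  have hn1 : ‖emb p (ψ (n : F))‖ < 1 := (hw n).1 hn
  have hd2 : ¬ ‖emb p (ψ ((d : 𝓞 F) : F))‖ < 1 := fun h => d.2 ((hw _).2 h)
  apply hd2
  have h2 : ((d : 𝓞 F) : F) = y * (n : F) := by
    have h3 : y⁻¹ * ((d : 𝓞 F) : F) = (n : F) := hnd
    rw [← h3, ← mul_assoc, mul_inv_cancel₀ hy0, one_mul]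
  rw [h2, map_mul, map_mul, norm_mul]
  exact lt_of_le_of_lt (mul_le_of_le_one_left (norm_nonneg _) hy) hn1

theorem isPl_close (hw : IsPl p ψ w) (k : ℕ) {y : F}
    (hy : ‖emb p (ψ (y - 1))‖ ≤ ((p : ℝ)⁻¹) ^ k) : closeOne w k y := by
  have hp0 : (p : F) ≠ 0 := by exact_mod_cast (Fact.out : p.Prime).ne_zero
  have hpr : (0 : ℝ) < (p : ℝ)⁻¹ := inv_pos.2 (by exact_mod_cast (Fact.out : p.Prime).pos)
  have h1 : w.valuation F ((y - 1) / (p : F) ^ k) ≤ 1 := by
    apply isPl_val hw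
    rw [map_div₀, map_div₀, map_pow, map_pow, map_natCast, map_natCast, norm_div, norm_pow,
      pl_norm_p]
    exact div_le_one_of_le₀ hy (pow_pos hpr k).le
  have h2 : w.valuation F (p : F) ≤ WithZero.exp (-((1 : ℕ) : ℤ)) := by
    have h3 : (p : F) = algebraMap (𝓞 F) F (p : 𝓞 F) := by simp
    rw [h3, HeightOneSpectrum.valuation_of_algebraMap,
      HeightOneSpectrum.intValuation_le_pow_iff_mem, pow_one]
    exact isPl_mem hw
  unfold closeOne
  have h4 : y - 1 = (y - 1) / (p : F) ^ k * (p : F) ^ k := by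
    rw [div_mul_cancel₀ _ (pow_ne_zero k hp0)]
  have h5 : (WithZero.exp (-((1 : ℕ) : ℤ)) : WithZero (Multiplicative ℤ)) ^ k =
      WithZero.exp (-(k : ℤ)) := by
    rw [← WithZero.exp_nsmul]
    congr 1
    simp
  rw [h4, map_mul, map_pow, ← h5]
  calc w.valuation F ((y - 1) / (p : F) ^ k) * w.valuation F (p : F) ^ k
      ≤ 1 * w.valuation F (p : F) ^ k := mul_le_mul_left h1 _
    _ = w.valuation F (p : F) ^ k := one_mul _
    _ ≤ _ := pow_le_pow_left₀ zero_le' h2 k

end Pool.Agent.LD
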