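import Pool.Agent.LD.L.RelK
import Pool.Agent.LD.I.Fin
import Pool.Agent.QD.F.Main

/-!
# LD/L-Ind: the induction on the total deficiency

`Lev K V m F d`: there are places `w v` of `F` over the `v ∈ V` and numbers `k v` with `2^(k v) ∣ locDeg K (w v)` and
`∑_{v ∈ V} (m - k v) ≤ d`.  By induction on `d` every `F` of this level with `[F : K] * 18^d ∣ 18^(m |V|)` satisfies `HW`:
`descent_v0` reduces it to extensions of degree dividing `18` with a place of even local degree over `w v0`.
-/

namespace Pool.Agent.LD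

open NumberField IsDedekindDomain Pool.Agent.HWR Pool.Agent.QD Pool.Agent.H73.DU Pool.Agent.H73.AL

/-- the hypothesis on the fields where a double zero may occur (see LD/I/Fin) -/
def Edge {T : Finset ℕ} (D : LocData T) (a : ℕ → ℝ) (F : Type) [Field F] [NumberField F]
    (w : HeightOneSpectrum (𝓞 F)) : Prop :=
  a (nrm w) ^ 2 = 4 * (nrm w : ℝ) → HWq D a w → ∀ f g : ℂ → ℂ, Differentiable ℂ f →
    Differentiable ℂ g → (∀ s : ℂ, 3 / 2 < s.re → g s ≠ 0) →
    (∀ s : ℂ, 3 / 2 < s.re → g s * D.Lam a F s = f s) → ∀ z : ℂ, z.re = 3 / 2 →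
      analyticOrderAt g z ≤ analyticOrderAt f z + 1 → analyticOrderAt g z ≤ analyticOrderAt f z

/-- level: places over the places of `V` with local degrees divisible by `2 ^ k v`, total deficiency at most `d` -/
private def Lev (K : Type) [Field K] [NumberField K] (V : Finset (HeightOneSpectrum (𝓞 K)))
    (m : ℕ) (F : Type) [Field F] [NumberField F] [Algebra K F] (d : ℕ) : Prop :=
  ∃ (w : HeightOneSpectrum (𝓞 K) → HeightOneSpectrum (𝓞 F)) (k : HeightOneSpectrum (𝓞 K) → ℕ),
    (∀ v ∈ V, Over v (w v) ∧ 2 ^ k v ∣ locDeg K (w v)) ∧ ∑ v ∈ V, (m - k v) ≤ d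

private theorem ind_away {K F : Type} [Field K] [NumberField K] [Field F] [NumberField F]
    [Algebra K F] {T : Finset ℕ} {v : HeightOneSpectrum (𝓞 K)} {w : HeightOneSpectrum (𝓞 F)}
    (h : Over v w) (hv : Away K T v) : Away F T w := by
  intro p hp hmem
  refine hv p hp ?_
  rw [← h, Ideal.mem_comap, map_natCast]
  exact hmem

open Classical in
private theorem ind_step {K : Type} [Field K] [NumberField K]
    (V : Finset (HeightOneSpectrum (𝓞 K))) {m d : ℕ} {F : Type} [Field F] [NumberField F]
    [Algebra K F] {w : HeightOneSpectrum (𝓞 K) → HeightOneSpectrum (𝓞 F)}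
    {k : HeightOneSpectrum (𝓞 K) → ℕ} (hw : ∀ v ∈ V, Over v (w v) ∧ 2 ^ k v ∣ locDeg K (w v))
    (hd : ∑ v ∈ V, (m - k v) ≤ d + 1) {v0 : HeightOneSpectrum (𝓞 K)} (hv0 : v0 ∈ V)
    (hk : k v0 < m) (F' : Type) [Field F'] [NumberField F'] [Algebra F F'] [Algebra K F']
    [IsScalarTower K F F'] {w' : HeightOneSpectrum (𝓞 F')} (hw' : Over (w v0) w')
    (h2 : 2 ∣ locDeg F w') : Lev K V m F' d := by
  choose g hg using fun v => exists_over' F' (w v)
  refine ⟨fun v => if v = v0 then w' else g v, fun v => if v = v0 then k v0 + 1 else k v, ?_, ?_⟩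
  · intro v hv
    by_cases hvv : v = v0
    · subst hvv
      simp only [if_true]
      refine ⟨over_trans (hw v hv).1 hw', ?_⟩
      rw [locDeg_tower K F F' (w v) w' hw', pow_succ]
      exact mul_dvd_mul (hw v hv).2 h2
    · simp only [if_neg hvv]
      refine ⟨over_trans (hw v hv).1 (hg v), ?_⟩
      rw [locDeg_tower K F F' (w v) (g v) (hg v)]
      exact (hw v hv).2.mul_right _
  · rw [← Finset.add_sum_erase V _ hv0] at hd ⊢
    have h3 : ∑ v ∈ V.erase v0, (m - (if v = v0 then k v0 + 1 else k v)) =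
        ∑ v ∈ V.erase v0, (m - k v) := by
      refine Finset.sum_congr rfl fun v hv => ?_
      rw [if_neg (Finset.ne_of_mem_erase hv)]
    simp only [if_true]
    rw [h3]
    omega

theorem ld_main (T : Finset ℕ) (hTp : ∀ p ∈ T, p.Prime)
    (hT : ∀ p : ℕ, p.Prime → p < 101 → p ∈ T) (D : LocData T) (a : ℕ → ℝ)
    (ha : ∀ q : ℕ, |a q| ≤ 2 * Real.sqrt q) (hfr : FrobRel T a)
    (hed : ∀ (F : Type) [Field F] [NumberField F] (w : HeightOneSpectrum (𝓞 F)), Away F T w →
      Edge D a F w)
    (K : Type) [Field K] [NumberField K] (V : Finset (HeightOneSpectrum (𝓞 K)))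
    (hV : ∀ v ∈ V, Away K T v) (m : ℕ)
    (h : ∀ (F : Type) [Field F] [NumberField F] [Algebra K F],
      Module.finrank K F ∣ 18 ^ (m * V.card) →
      (∀ v ∈ V, ∃ w : HeightOneSpectrum (𝓞 F), Over v w ∧ 2 ^ m ∣ locDeg K w) → D.HW a F) :
    D.HW a K := by
  have key : ∀ d : ℕ, ∀ (F : Type) [Field F] [NumberField F] [Algebra K F],
      Module.finrank K F * 18 ^ d ∣ 18 ^ (m * V.card) → Lev K V m F d → D.HW a F := by
    intro d
    induction d with
    | zero =>
      intro F _ _ _ hdeg hlev
      obtain ⟨w, k, hw, hd⟩ := hlev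
      refine h F (by simpa using hdeg) fun v hv => ⟨w v, (hw v hv).1, ?_⟩
      have h1 : m - k v ≤ 0 := (Finset.single_le_sum (f := fun v => m - k v)
        (fun _ _ => Nat.zero_le _) hv).trans hd
      exact (pow_dvd_pow 2 (by omega)).trans (hw v hv).2
    | succ d ih =>
      intro F _ _ _ hdeg hlev
      obtain ⟨w, k, hw, hd⟩ := hlev
      by_cases hall : ∀ v ∈ V, m ≤ k v
      · refine h F ((Dvd.intro _ rfl).trans hdeg) fun v hv => ⟨w v, (hw v hv).1, ?_⟩
        exact (pow_dvd_pow 2 (hall v hv)).trans (hw v hv).2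
      · push Not at hall
        obtain ⟨v0, hv0, hk⟩ := hall
        -- all extensions of `F` of degree dividing `18` with a place over `w v0` of even local degree
        have hext : ∀ (F' : Type) [Field F'] [NumberField F'] [Algebra F F'],
            Module.finrank F F' ∣ 18 → (∃ w' : HeightOneSpectrum (𝓞 F'), Over (w v0) w' ∧
              2 ∣ locDeg F w') → D.HW a F' := by
          intro F' _ _ _ hdeg' hw'
          obtain ⟨w', hw1, hw2⟩ := hw'
          let _ : Algebra K F' := ((algebraMap F F').comp (algebraMap K F)).toAlgebra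
          have _ : IsScalarTower K F F' := IsScalarTower.of_algebraMap_eq' rfl
          refine ih F' ?_ (ind_step V hw hd hv0 hk F' hw1 hw2)
          have h1 : Module.finrank K F * Module.finrank F F' = Module.finrank K F' :=
            Module.finrank_mul_finrank K F F'
          rw [← h1]
          refine dvd_trans ?_ hdeg
          rw [mul_assoc, pow_succ, mul_comm (18 ^ d) 18]
          exact mul_dvd_mul_left _ (mul_dvd_mul_right hdeg' _)
        have haw : Away F T (w v0) := ind_away (hw v0 hv0).1 (hV v0 hv0)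
        have hq : HWq D a (w v0) := by
          intro x hx L _ _ _ θ hL hθ
          obtain ⟨w', hw'⟩ := exists_over' L (w v0)
          refine hext L ?_ ⟨w', hw', ?_⟩
          · rw [hL]
            norm_num
          · rw [nonsplit_two L hL x θ hθ (w v0) hx w' hw']
        obtain ⟨A, B, hAB, hrel⟩ := rel_even T hTp ⟨F⟩ (w v0)
        have hEv : ∀ F' ∈ A ++ B, D.HW a F'.F := by
          intro F' hF'
          obtain ⟨inst, w', h1, h2, h3⟩ := hAB F' hF'
          exact @hext F'.F _ _ inst h1 ⟨w', h2, h3⟩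
        have hM : D.MER a F := MER_of_rel D hTp hT ha ⟨F⟩ hrel
          (fun F' hF' => hEv F' (List.mem_append.2 (Or.inl hF')))
          (fun F' hF' => hEv F' (List.mem_append.2 (Or.inr hF')))
        exact descent_v0 F T hTp hT D a ha (sqRel_of_frob F T a hfr) (w v0) haw hq
          (fun h1 => hed F (w v0) haw h1 hq) hM
  refine key (m * V.card) K ?_ ?_
  · rw [Module.finrank_self, one_mul]
  · choose g hg using fun v : HeightOneSpectrum (𝓞 K) => exists_over' K v
    refine ⟨g, fun _ => 0, fun v _ => ⟨hg v, ?_⟩, ?_⟩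
    · rw [pow_zero]
      exact one_dvd _
    · simp only [Nat.sub_zero, Finset.sum_const, smul_eq_mul]
      rw [mul_comm]

end Pool.Agent.LD
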