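import Pool.Agent.H73.AL.Final
import Pool.Agent.QD.KDefs

/-!
# LD/L, fields with even local degree: definitions
-/

namespace Pool.Agent.LD

open NumberField IsDedekindDomain Pool.Agent.HWR Pool.Agent.QD Pool.Agent.H73.DU
open Pool.Agent.H73.AL (NF)

/-- `w` is the place of `F` induced by the embedding `ψ` and the fixed embedding of
`AlgebraicClosure ℚ` in `AlgebraicClosure ℚ_[p]` -/
def IsPl (p : ℕ) [Fact p.Prime] {F : Type} [Field F] [NumberField F]
    (ψ : F →+* AlgebraicClosure ℚ) (w : HeightOneSpectrum (𝓞 F)) : Prop :=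
  ∀ x : 𝓞 F, x ∈ w.asIdeal ↔ ‖emb p (ψ (x : F))‖ < 1

/-- `w` lies over `v` -/
def Over {K F : Type} [Field K] [NumberField K] [Field F] [NumberField F] [Algebra K F]
    (v : HeightOneSpectrum (𝓞 K)) (w : HeightOneSpectrum (𝓞 F)) : Prop :=
  w.asIdeal.comap (algebraMap (𝓞 K) (𝓞 F)) = v.asIdeal

/-- the local degree `[F_w : K_v] = e f` of a place `w` of `F` over `K` -/
noncomputable def locDeg (K : Type) {F : Type} [Field K] [NumberField K] [Field F]
    [NumberField F] [Algebra K F] (w : HeightOneSpectrum (𝓞 F)) : ℕ :=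
  w.asIdeal.ramificationIdx (𝓞 K) * w.asIdeal.inertiaDeg (𝓞 K)

/-- stabilizer of an embedding -/
noncomputable def stb {K : Type} [Field K] (φ : K →+* AlgebraicClosure ℚ) : Subgroup GQ :=
  MulAction.stabilizer GQ φ

/-- two cocycles with values in `F_3` twisted by a sign -/
structure CocD (J : Type) [Group J] where
  ε : J →* (ZMod 3)ˣ
  z1 : J → ZMod 3
  z2 : J → ZMod 3
  h1 : ∀ g h, z1 (g * h) = z1 g + (ε g : ZMod 3) * z1 h
  h2 : ∀ g h, z2 (g * h) = z2 g + (ε g : ZMod 3) * z2 h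

section sets

variable {J : Type} [Group J]

theorem CocD.z1_one (D : CocD J) : D.z1 1 = 0 := by
  have h := D.h1 1 1
  rw [mul_one, map_one, Units.val_one, one_mul] at h
  exact left_eq_add.1 h

theorem CocD.z2_one (D : CocD J) : D.z2 1 = 0 := by
  have h := D.h2 1 1
  rw [mul_one, map_one, Units.val_one, one_mul] at h
  exact left_eq_add.1 h

/-- the affine plane -/
@[ext] structure X9 (D : CocD J) where
  a : ZMod 3
  b : ZMod 3
/-- the affine line, image of the plane by the functional `c1 a + c2 b` -/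
@[ext] structure X3 (D : CocD J) (c1 c2 : ZMod 3) where
  a : ZMod 3
/-- the signs -/
@[ext] structure X2 (D : CocD J) where
  e : (ZMod 3)ˣ
/-- the affine line of `z1` and the signs -/
@[ext] structure X6 (D : CocD J) where
  a : ZMod 3
  e : (ZMod 3)ˣ

instance (D : CocD J) : MulAction J (X9 D) where
  smul g x := ⟨(D.ε g : ZMod 3) * x.a + D.z1 g, (D.ε g : ZMod 3) * x.b + D.z2 g⟩
  one_smul x := by
    change (⟨(D.ε 1 : ZMod 3) * x.a + D.z1 1, (D.ε 1 : ZMod 3) * x.b + D.z2 1⟩ : X9 D) = x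
    rw [map_one, Units.val_one, D.z1_one, D.z2_one]
    simp
  mul_smul g h x := by
    change (⟨(D.ε (g * h) : ZMod 3) * x.a + D.z1 (g * h), (D.ε (g * h) : ZMod 3) * x.b +
      D.z2 (g * h)⟩ : X9 D) = ⟨(D.ε g : ZMod 3) * ((D.ε h : ZMod 3) * x.a + D.z1 h) + D.z1 g,
        (D.ε g : ZMod 3) * ((D.ε h : ZMod 3) * x.b + D.z2 h) + D.z2 g⟩
    rw [D.h1, D.h2, map_mul, Units.val_mul]
    ext
    · dsimp only
      ring
    · dsimp only
      ring

instance (D : CocD J) (c1 c2 : ZMod 3) : MulAction J (X3 D c1 c2) where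
  smul g x := ⟨(D.ε g : ZMod 3) * x.a + (c1 * D.z1 g + c2 * D.z2 g)⟩
  one_smul x := by
    change (⟨(D.ε 1 : ZMod 3) * x.a + (c1 * D.z1 1 + c2 * D.z2 1)⟩ : X3 D c1 c2) = x
    rw [map_one, Units.val_one, D.z1_one, D.z2_one]
    simp
  mul_smul g h x := by
    change (⟨(D.ε (g * h) : ZMod 3) * x.a + (c1 * D.z1 (g * h) + c2 * D.z2 (g * h))⟩ :
      X3 D c1 c2) = ⟨(D.ε g : ZMod 3) * ((D.ε h : ZMod 3) * x.a + (c1 * D.z1 h + c2 * D.z2 h)) +
        (c1 * D.z1 g + c2 * D.z2 g)⟩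
    rw [D.h1, D.h2, map_mul, Units.val_mul]
    ext
    dsimp only
    ring

instance (D : CocD J) : MulAction J (X2 D) where
  smul g x := ⟨D.ε g * x.e⟩
  one_smul x := by
    change (⟨D.ε 1 * x.e⟩ : X2 D) = x
    rw [map_one, one_mul]
  mul_smul g h x := by
    change (⟨D.ε (g * h) * x.e⟩ : X2 D) = ⟨D.ε g * (D.ε h * x.e)⟩
    rw [map_mul, mul_assoc]

instance (D : CocD J) : MulAction J (X6 D) where
  smul g x := ⟨(D.ε g : ZMod 3) * x.a + D.z1 g, D.ε g * x.e⟩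
  one_smul x := by
    change (⟨(D.ε 1 : ZMod 3) * x.a + D.z1 1, D.ε 1 * x.e⟩ : X6 D) = x
    rw [map_one, Units.val_one, D.z1_one, one_mul]
    simp
  mul_smul g h x := by
    change (⟨(D.ε (g * h) : ZMod 3) * x.a + D.z1 (g * h), D.ε (g * h) * x.e⟩ : X6 D) =
      ⟨(D.ε g : ZMod 3) * ((D.ε h : ZMod 3) * x.a + D.z1 h) + D.z1 g, D.ε g * (D.ε h * x.e)⟩
    rw [D.h1, map_mul, Units.val_mul]
    ext
    · dsimp only
      ring
    · dsimp only
      rw [mul_assoc]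

theorem X9.smul_def (D : CocD J) (g : J) (x : X9 D) :
    g • x = ⟨(D.ε g : ZMod 3) * x.a + D.z1 g, (D.ε g : ZMod 3) * x.b + D.z2 g⟩ := rfl
theorem X3.smul_def (D : CocD J) (c1 c2 : ZMod 3) (g : J) (x : X3 D c1 c2) :
    g • x = ⟨(D.ε g : ZMod 3) * x.a + (c1 * D.z1 g + c2 * D.z2 g)⟩ := rfl
theorem X2.smul_def (D : CocD J) (g : J) (x : X2 D) : g • x = ⟨D.ε g * x.e⟩ := rfl
theorem X6.smul_def (D : CocD J) (g : J) (x : X6 D) :
    g • x = ⟨(D.ε g : ZMod 3) * x.a + D.z1 g, D.ε g * x.e⟩ := rfl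

/-- the cocycles are coboundaries on `U` -/
def CocD.Triv (D : CocD J) (U : Subgroup J) : Prop :=
  ∃ t1 t2 : ZMod 3, ∀ u ∈ U, D.z1 u = ((D.ε u : ZMod 3) - 1) * t1 ∧
    D.z2 u = ((D.ε u : ZMod 3) - 1) * t2

/-- openness and independence -/
structure CocD.Good [TopologicalSpace J] (D : CocD J) : Prop where
  op : ∃ U : Subgroup J, IsOpen (U : Set J) ∧ ∀ u ∈ U, D.ε u = 1 ∧ D.z1 u = 0 ∧ D.z2 u = 0
  surj : ∀ a b : ZMod 3, ∃ n, D.ε n = 1 ∧ D.z1 n = a ∧ D.z2 n = b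
  ne : ∃ g, D.ε g ≠ 1

end sets

end Pool.Agent.LD
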